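import Pool.Agent.Cov.PNT

/-! # The number of primes in a residue class in dyadic intervals -/

set_option autoImplicit false

namespace Pool.Agent.V7H38.BS

open Finset Filter ArithmeticFunction Topology

/-- the primes in `(N, 2 N]` in a class -/
def pcl (q : ℕ) (a : ZMod q) (N : ℕ) : Finset ℕ :=
  (Ioc N (2 * N)).filter (fun p => p.Prime ∧ (p : ZMod q) = a)

theorem pnt_dyadic {q : ℕ} [NeZero q] {a : ZMod q} (ha : IsUnit a) :
    Tendsto (fun N : ℕ => ((pcl q a N).card : ℝ) * Real.log N / N) atTop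
      (𝓝 ((q.totient : ℝ)⁻¹)) := by
  classical
  set φ : ℝ := (q.totient : ℝ)⁻¹ with hφ
  set F : ℕ → ℝ := fun n => ∑ k ∈ Icc 1 n, vonMangoldt.residueClass a k with hF
  have h0 : Tendsto (fun n : ℕ => F n / n) atTop (𝓝 φ) := by
    refine ((Pool.Agent.Cov.PNT.pnt_residueClass ha).comp
      (tendsto_natCast_atTop_atTop (R := ℝ))).congr fun n => ?_
    simp only [Function.comp, Nat.floor_natCast, hF]
  have h2N : Tendsto (fun N : ℕ => 2 * N) atTop atTop :=
    tendsto_id.const_mul_atTop' (by norm_num)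
  have h1 : Tendsto (fun N : ℕ => (F (2 * N) - F N) / N) atTop (𝓝 φ) := by
    have h2 := ((h0.comp h2N).const_mul 2).sub h0
    rw [show 2 * φ - φ = φ by ring] at h2
    refine h2.congr' ?_
    filter_upwards [eventually_gt_atTop 0] with N hN
    have hN' : (N : ℝ) ≠ 0 := by exact_mod_cast hN.ne'
    simp only [Function.comp]
    push_cast
    field_simp
  set T : ℕ → ℝ := fun N => ∑ p ∈ pcl q a N, Real.log p with hT
  obtain ⟨C, hC⟩ := Chebyshev.psi_sub_theta_le_mul_sqrt
  have hsplit : ∀ N : ℕ, F (2 * N) - F N = ∑ k ∈ Ioc N (2 * N), vonMangoldt.residueClass a k := by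
    intro N
    have h9 : Icc 1 (2 * N) = Icc 1 N ∪ Ioc N (2 * N) := by
      ext k
      rw [mem_union, mem_Icc, mem_Icc, mem_Ioc]
      omega
    have h10 : Disjoint (Icc 1 N) (Ioc N (2 * N)) := by
      rw [Finset.disjoint_left]
      intro k hk hk'
      rw [mem_Icc] at hk
      rw [mem_Ioc] at hk'
      omega
    simp only [hF]
    rw [h9, Finset.sum_union h10]
    ring
  have hres : ∀ k : ℕ, vonMangoldt.residueClass a k = if (k : ZMod q) = a then vonMangoldt k else 0 := by
    intro k
    unfold vonMangoldt.residueClass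
    by_cases h : (k : ZMod q) = a
    · rw [if_pos h, Set.indicator_of_mem]
      exact h
    · rw [if_neg h, Set.indicator_of_notMem]
      exact h
  have hTsum : ∀ N : ℕ, T N = ∑ k ∈ Ioc N (2 * N),
      if k.Prime ∧ (k : ZMod q) = a then Real.log k else 0 := by
    intro N
    simp only [hT, pcl]
    rw [Finset.sum_filter]
  have hlow : ∀ N : ℕ, 0 ≤ (F (2 * N) - F N) - T N := by
    intro N
    rw [hsplit, hTsum, ← Finset.sum_sub_distrib]
    refine Finset.sum_nonneg fun k _ => ?_
    rw [hres]
    by_cases h : (k : ZMod q) = a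
    · by_cases hp : k.Prime
      · rw [if_pos h, if_pos ⟨hp, h⟩, vonMangoldt_apply_prime hp, sub_self]
      · rw [if_pos h, if_neg (fun h' => hp h'.1), sub_zero]
        exact vonMangoldt_nonneg
    · rw [if_neg h, if_neg (fun h' => h h'.2), sub_self]
  have hup : ∀ N : ℕ, (F (2 * N) - F N) - T N ≤ C * Real.sqrt ((2 * N : ℕ) : ℝ) := by
    intro N
    refine le_trans ?_ (hC ((2 * N : ℕ) : ℝ))
    have e1 : Chebyshev.psi ((2 * N : ℕ) : ℝ) - Chebyshev.theta ((2 * N : ℕ) : ℝ) =
        ∑ k ∈ Ioc 0 (2 * N), (vonMangoldt k - if k.Prime then Real.log k else 0) := by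
      unfold Chebyshev.psi Chebyshev.theta
      rw [Nat.floor_natCast, sum_sub_distrib, ← sum_filter]
    rw [e1, hsplit, hTsum, ← Finset.sum_sub_distrib]
    have hnn : ∀ k : ℕ, 0 ≤ (vonMangoldt k - if k.Prime then Real.log k else 0 : ℝ) := by
      intro k
      split_ifs with hp
      · rw [vonMangoldt_apply_prime hp]; simp
      · simp [vonMangoldt_nonneg]
    refine le_trans (Finset.sum_le_sum fun k _ => ?_)
      (Finset.sum_le_sum_of_subset_of_nonneg (s := Ioc N (2 * N)) ?_ fun k _ _ => hnn k)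
    · rw [hres]
      by_cases h : (k : ZMod q) = a
      · by_cases hp : k.Prime
        · rw [if_pos h, if_pos ⟨hp, h⟩, if_pos hp]
        · rw [if_pos h, if_neg (fun h' => hp h'.1), if_neg hp]
      · rw [if_neg h, if_neg (fun h' => h h'.2), sub_self]
        exact hnn k
    · intro k hk
      rw [mem_Ioc] at hk ⊢
      omega
  have hsq : Tendsto (fun N : ℕ => C * Real.sqrt ((2 * N : ℕ) : ℝ) / N) atTop (𝓝 0) := by
    have h3 : Tendsto (fun N : ℕ => (Real.sqrt ((2 * N : ℕ) : ℝ))⁻¹) atTop (𝓝 0) :=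
      tendsto_inv_atTop_zero.comp (Real.tendsto_sqrt_atTop.comp
        ((tendsto_natCast_atTop_atTop (R := ℝ)).comp h2N))
    have h4 := h3.const_mul (2 * C)
    rw [mul_zero] at h4
    refine h4.congr' ?_
    filter_upwards [eventually_gt_atTop 0] with N hN
    have hN' : (0 : ℝ) < N := by exact_mod_cast hN
    have hs : 0 < Real.sqrt ((2 * N : ℕ) : ℝ) := Real.sqrt_pos.mpr (by push_cast; positivity)
    have hs2 : Real.sqrt ((2 * N : ℕ) : ℝ) * Real.sqrt ((2 * N : ℕ) : ℝ) = 2 * N := by
      rw [Real.mul_self_sqrt (by positivity)]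
      push_cast
      ring
    rw [eq_div_iff hN'.ne', ← div_eq_mul_inv, div_mul_eq_mul_div, div_eq_iff hs.ne']
    linear_combination (-C) * hs2
  have h5 : Tendsto (fun N : ℕ => ((F (2 * N) - F N) - T N) / N) atTop (𝓝 0) := by
    refine squeeze_zero (fun N => div_nonneg (hlow N) (Nat.cast_nonneg N)) (fun N => ?_) hsq
    exact div_le_div_of_nonneg_right (hup N) (Nat.cast_nonneg N)
  have h6 : Tendsto (fun N : ℕ => T N / N) atTop (𝓝 φ) := by
    have h7 := h1.sub h5
    rw [sub_zero] at h7
    refine h7.congr fun N => ?_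
    ring
  -- the logarithms
  have hlog : Tendsto (fun N : ℕ => Real.log N) atTop atTop :=
    Real.tendsto_log_atTop.comp (tendsto_natCast_atTop_atTop (R := ℝ))
  have hlr : Tendsto (fun N : ℕ => Real.log N / Real.log ((2 * N : ℕ) : ℝ)) atTop (𝓝 1) := by
    have h8 : Tendsto (fun N : ℕ => Real.log 2 * (Real.log N)⁻¹ + 1) atTop (𝓝 1) := by
      have := ((tendsto_inv_atTop_zero.comp hlog).const_mul (Real.log 2)).add_const 1
      simpa [Function.comp_def] using this
    have h9 := h8.inv₀ one_ne_zero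
    rw [inv_one] at h9
    refine h9.congr' ?_
    filter_upwards [eventually_gt_atTop 1] with N hN
    have hN0 : (N : ℝ) ≠ 0 := by
      have : 0 < N := by omega
      exact_mod_cast this.ne'
    have hl : 0 < Real.log N := Real.log_pos (by exact_mod_cast hN)
    have hl2 : 0 < Real.log 2 := Real.log_pos (by norm_num)
    rw [Nat.cast_mul, Nat.cast_ofNat, Real.log_mul (by norm_num) hN0]
    field_simp
  have hT1 : ∀ᶠ N : ℕ in atTop, T N / N * (Real.log N / Real.log ((2 * N : ℕ) : ℝ)) ≤
      ((pcl q a N).card : ℝ) * Real.log N / N := by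
    filter_upwards [eventually_gt_atTop 1] with N hN
    have hN0 : (0 : ℝ) < N := by
      have : 0 < N := by omega
      exact_mod_cast this
    have hl : 0 < Real.log N := Real.log_pos (by exact_mod_cast hN)
    have hl2 : 0 < Real.log ((2 * N : ℕ) : ℝ) := Real.log_pos (by
      have : 1 < 2 * N := by omega
      exact_mod_cast this)
    have h10 : T N ≤ (pcl q a N).card * Real.log ((2 * N : ℕ) : ℝ) := by
      rw [← nsmul_eq_mul, ← Finset.sum_const]
      refine Finset.sum_le_sum fun p hp => ?_
      unfold pcl at hp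
      rw [mem_filter, mem_Ioc] at hp
      exact Real.log_le_log (by exact_mod_cast hp.2.1.pos) (by exact_mod_cast hp.1.2)
    rw [div_mul_div_comm, div_le_div_iff₀ (by positivity) hN0]
    calc T N * Real.log N * N ≤ ((pcl q a N).card * Real.log ((2 * N : ℕ) : ℝ)) * Real.log N * N := by
          gcongr
      _ = _ := by ring
  have hT2 : ∀ᶠ N : ℕ in atTop, ((pcl q a N).card : ℝ) * Real.log N / N ≤ T N / N := by
    filter_upwards [eventually_gt_atTop 1] with N hN
    have hN0 : (0 : ℝ) < N := by
      have : 0 < N := by omega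
      exact_mod_cast this
    gcongr
    simp only [hT]
    rw [← nsmul_eq_mul, ← Finset.sum_const]
    refine Finset.sum_le_sum fun p hp => ?_
    unfold pcl at hp
    rw [mem_filter, mem_Ioc] at hp
    exact Real.log_le_log hN0 (by exact_mod_cast hp.1.1.le)
  have h11 : Tendsto (fun N : ℕ => T N / N * (Real.log N / Real.log ((2 * N : ℕ) : ℝ))) atTop
      (𝓝 φ) := by
    have := h6.mul hlr
    rwa [mul_one] at this
  exact tendsto_of_tendsto_of_tendsto_of_le_of_le' h11 h6 hT1 hT2

/-- the proportion of the primes in a class of units -/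
theorem pnt_ratio {q : ℕ} [NeZero q] {a : ZMod q} (ha : IsUnit a) :
    Tendsto (fun N : ℕ => ((pcl q a N).card : ℝ) / ((Ioc N (2 * N)).filter Nat.Prime).card) atTop
      (𝓝 ((q.totient : ℝ)⁻¹)) := by
  classical
  have h1 := pnt_dyadic ha
  have h2 := pnt_dyadic (q := 1) (a := 1) isUnit_one
  rw [Nat.totient_one, Nat.cast_one, inv_one] at h2
  have h3 := h1.div h2 one_ne_zero
  rw [div_one] at h3
  refine h3.congr' ?_
  filter_upwards [eventually_gt_atTop 1] with N hN
  have hN0 : (0 : ℝ) < N := by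
    have : 0 < N := by omega
    exact_mod_cast this
  have hl : 0 < Real.log N := Real.log_pos (by exact_mod_cast hN)
  have e : pcl 1 1 N = (Ioc N (2 * N)).filter Nat.Prime := by
    unfold pcl
    refine Finset.filter_congr fun p _ => ?_
    constructor
    · exact fun h => h.1
    · exact fun h => ⟨h, Subsingleton.elim _ _⟩
  rw [Pi.div_apply]
  simp only [e]
  have hx : Real.log N / (N : ℝ) ≠ 0 := (div_pos hl hN0).ne'
  have e3 : ∀ A B : ℝ, A * Real.log N / N / (B * Real.log N / N) = A / B := by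
    intro A B
    rw [mul_div_assoc A, mul_div_assoc B, mul_div_mul_right _ _ hx]
  exact e3 _ _

end Pool.Agent.V7H38.BS
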