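import Pool.Agent.V7H38.BS.Reg
import Pool.Agent.V7H38.BS.PAP
import Pool.Agent.N92.TC.Null

/-! # Sequences with regular distribution: integers, primes, generalised polynomials -/

set_option autoImplicit false

namespace Pool.Agent.V7H38.BS

open Finset Filter Polynomial
open Pool.Agent.N92.TC (Eqd)

theorem regular_of {S : ℕ → Finset ℕ} {u : ℕ → ℤ} {A : ℤ[X]} (d : ℕ → ℤ → ℝ)
    (h1 : ∀ q : ℕ, 1 ≤ q → ∀ ρ : ℤ, Tendsto
      (fun N => ({t : ℕ | t ∈ S N ∧ (q : ℤ) ∣ u t - ρ}.ncard : ℝ) / (S N).card)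
      atTop (nhds (d q ρ)))
    (hmul : ∀ q q' : ℕ, 1 ≤ q → 1 ≤ q' → q.Coprime q' → ∀ r : ℤ, d (q * q') r = d q r * d q' r)
    (hper : ∀ q : ℕ, ∀ ρ ρ' : ℤ, (q : ℤ) ∣ ρ - ρ' → d q ρ = d q ρ')
    (hlow : ∀ p : ℕ, p.Prime → ∀ ρ : ℤ, ¬ (p : ℤ) ∣ A.eval ρ → 1 / (p : ℝ) ^ 2 ≤ d (p ^ 2) ρ) :
    Regular S u A := by
  refine ⟨d, h1, ?_, 1, one_pos, 0, fun p hp _ ρ hρ => hlow p hp ρ hρ⟩
  intro q q' hq hq' hc ρ ρ'
  have hco : IsCoprime (q : ℤ) (q' : ℤ) := Nat.isCoprime_iff_coprime.2 hc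
  obtain ⟨x, y, hxy⟩ := hco
  set r : ℤ := ρ * (y * q') + ρ' * (x * q) with hr
  have e1 : (q : ℤ) ∣ r - ρ := ⟨x * (ρ' - ρ), by rw [hr]; linear_combination ρ * hxy⟩
  have e2 : (q' : ℤ) ∣ r - ρ' := ⟨y * (ρ - ρ'), by rw [hr]; linear_combination ρ' * hxy⟩
  have h2 := h1 (q * q') (Nat.mul_pos hq hq') r
  rw [hmul q q' hq hq' hc r, hper q r ρ e1, hper q' r ρ' e2] at h2
  refine h2.congr fun N => ?_
  congr 3
  ext t
  simp only [Set.mem_ofPred_eq]
  refine and_congr_right fun _ => ?_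
  rw [Nat.cast_mul]
  constructor
  · intro h
    constructor
    · have := dvd_add ((Dvd.intro _ rfl : (q : ℤ) ∣ q * q').trans h) e1
      rwa [sub_add_sub_cancel] at this
    · have := dvd_add ((Dvd.intro_left _ rfl : (q' : ℤ) ∣ q * q').trans h) e2
      rwa [sub_add_sub_cancel] at this
  · rintro ⟨h3, h4⟩
    apply IsCoprime.mul_dvd ⟨x, y, hxy⟩
    · have := dvd_sub h3 e1
      rwa [sub_sub_sub_cancel_right] at this
    · have := dvd_sub h4 e2
      rwa [sub_sub_sub_cancel_right] at this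

/-- uniformly distributed sequences -/
theorem regular_of_eqd {S : ℕ → Finset ℕ} {u : ℕ → ℤ} (h : Eqd S u) (A : ℤ[X]) : Regular S u A := by
  refine regular_of (fun q _ => 1 / (q : ℝ)) h ?_ (fun _ _ _ _ => rfl) ?_
  · intro q q' _ _ _ _
    push_cast
    rw [div_mul_div_comm, one_mul]
  · intro p _ ρ _
    push_cast
    exact le_rfl

/-- the integers -/
theorem eqd_int : Eqd (fun N => Ioc N (2 * N)) (fun t => (t : ℤ)) := by
  classical
  intro q hq ρ
  have hq0 : (0 : ℤ) < q := by exact_mod_cast hq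
  have hq0' : 0 < q := hq
  set v : ℕ := (ρ % (q : ℤ)).toNat with hv
  have hv0 : ((v : ℕ) : ℤ) = ρ % (q : ℤ) := by
    rw [hv, Int.toNat_of_nonneg (Int.emod_nonneg _ hq0.ne')]
  have hset : ∀ N : ℕ, {t : ℕ | t ∈ Ioc N (2 * N) ∧ (q : ℤ) ∣ (t : ℤ) - ρ}.ncard =
      #{x ∈ Ioc N (2 * N) | x ≡ v [MOD q]} := by
    intro N
    rw [← Set.ncard_coe_finset]
    congr 1
    ext t
    rw [Finset.mem_coe, Finset.mem_filter, Set.mem_ofPred_eq]
    refine and_congr_right fun _ => ?_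
    rw [← Int.natCast_modEq_iff, hv0, Int.modEq_comm, Int.modEq_iff_dvd]
    apply dvd_iff_dvd_of_dvd_sub
    have e : (t : ℤ) - ρ - (t - ρ % q) = -(ρ - ρ % q) := by ring
    rw [e]
    exact (dvd_neg).2 Int.dvd_self_sub_emod
  have hb : ∀ N : ℕ, |(#{x ∈ Ioc N (2 * N) | x ≡ v [MOD q]} : ℝ) - N / q| ≤ 1 := by
    intro N
    have h1 := Nat.Ioc_filter_modEq_card N (2 * N) hq0' v
    set f1 := ⌊(((2 * N : ℕ) : ℚ) - v) / (q : ℚ)⌋ with hf1
    set f2 := ⌊((N : ℚ) - v) / (q : ℚ)⌋ with hf2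
    have hle : f2 ≤ f1 := by
      apply Int.floor_le_floor
      have : (N : ℚ) ≤ ((2 * N : ℕ) : ℚ) := by
        push_cast
        have : (0 : ℚ) ≤ N := by positivity
        linarith
      gcongr
    rw [max_eq_left (by linarith)] at h1
    have h2 : (#{x ∈ Ioc N (2 * N) | x ≡ v [MOD q]} : ℚ) = f1 - f2 := by exact_mod_cast h1
    have a1 := Int.floor_le ((((2 * N : ℕ) : ℚ) - v) / (q : ℚ))
    have a2 := Int.lt_floor_add_one ((((2 * N : ℕ) : ℚ) - v) / (q : ℚ))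
    have a3 := Int.floor_le (((N : ℚ) - v) / (q : ℚ))
    have a4 := Int.lt_floor_add_one (((N : ℚ) - v) / (q : ℚ))
    rw [← hf1] at a1 a2
    rw [← hf2] at a3 a4
    have e : (((2 * N : ℕ) : ℚ) - v) / (q : ℚ) - ((N : ℚ) - v) / (q : ℚ) = N / q := by
      push_cast
      ring
    have h3 : |(#{x ∈ Ioc N (2 * N) | x ≡ v [MOD q]} : ℚ) - N / q| ≤ 1 := by
      rw [h2, abs_le]
      constructor <;> linarith
    have h4 : ((|(#{x ∈ Ioc N (2 * N) | x ≡ v [MOD q]} : ℚ) - N / q| : ℚ) : ℝ) ≤ ((1 : ℚ) : ℝ) := by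
      exact_mod_cast h3
    push_cast at h4
    exact h4
  have hcard : ∀ N : ℕ, ((Ioc N (2 * N)).card : ℝ) = N := by
    intro N
    rw [Nat.card_Ioc]
    have : 2 * N - N = N := by omega
    rw [this]
  rw [tendsto_iff_norm_sub_tendsto_zero]
  have hz : Tendsto (fun N : ℕ => 1 / (N : ℝ)) atTop (nhds 0) := tendsto_one_div_atTop_nhds_zero_nat
  refine squeeze_zero' (Eventually.of_forall fun N => norm_nonneg _) ?_ hz
  filter_upwards [eventually_gt_atTop 0] with N hN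
  have hN0 : (0 : ℝ) < N := by exact_mod_cast hN
  have hqR : (0 : ℝ) < q := by exact_mod_cast hq0'
  simp only [hset N, hcard N]
  have e : (#{x ∈ Ioc N (2 * N) | x ≡ v [MOD q]} : ℝ) / N - 1 / q =
      ((#{x ∈ Ioc N (2 * N) | x ≡ v [MOD q]} : ℝ) - N / q) / N := by
    field_simp
  rw [e, Real.norm_eq_abs, abs_div, abs_of_pos hN0]
  exact div_le_div_of_nonneg_right (hb N) hN0.le

open Classical in
/-- the density of the primes in the class of `ρ` modulo `q` -/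
noncomputable def dp (q : ℕ) (ρ : ℤ) : ℝ := if IsCoprime ρ (q : ℤ) then ((q.totient : ℝ))⁻¹ else 0

theorem isUnit_iff (q : ℕ) (ρ : ℤ) : IsUnit ((ρ : ℤ) : ZMod q) ↔ IsCoprime ρ (q : ℤ) := by
  constructor
  · intro h
    obtain ⟨⟨a, b, hab, hba⟩, ha⟩ := h
    have ha' : a = (ρ : ZMod q) := ha
    obtain ⟨c, rfl⟩ := ZMod.intCast_surjective b
    subst ha'
    have h1 : ((ρ * c - 1 : ℤ) : ZMod q) = 0 := by
      push_cast
      rw [hab, sub_self]
    rw [ZMod.intCast_zmod_eq_zero_iff_dvd] at h1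
    obtain ⟨k, hk⟩ := h1
    exact ⟨c, -k, by linear_combination hk⟩
  · rintro ⟨x, y, hxy⟩
    have h1 : (((ρ : ℤ) : ZMod q)) * (x : ZMod q) = 1 := by
      have := congrArg (Int.cast (R := ZMod q)) hxy
      push_cast at this
      rw [ZMod.natCast_self, mul_zero, add_zero] at this
      rw [mul_comm]
      exact this
    exact IsUnit.of_mul_eq_one _ h1

theorem primes_dens (q : ℕ) (hq : 1 ≤ q) (ρ : ℤ) : Tendsto
    (fun N => ({t : ℕ | t ∈ (Ioc N (2 * N)).filter Nat.Prime ∧ (q : ℤ) ∣ (t : ℤ) - ρ}.ncard : ℝ) /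
      ((Ioc N (2 * N)).filter Nat.Prime).card) atTop (nhds (dp q ρ)) := by
  classical
  have : NeZero q := ⟨by omega⟩
  unfold dp
  by_cases h : IsCoprime ρ (q : ℤ)
  · rw [if_pos h]
    have hu := (isUnit_iff q ρ).2 h
    refine (pnt_ratio hu).congr fun N => ?_
    congr 2
    rw [← Set.ncard_coe_finset]
    congr 1
    ext t
    unfold pcl
    simp only [Finset.coe_filter, Finset.mem_filter, Set.mem_ofPred_eq]
    rw [and_assoc]
    refine and_congr_right fun _ => and_congr_right fun _ => ?_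
    rw [← ZMod.intCast_zmod_eq_zero_iff_dvd]
    push_cast
    rw [sub_eq_zero]
  · rw [if_neg h]
    refine tendsto_const_nhds.congr' ?_
    filter_upwards [eventually_ge_atTop q] with N hN
    have he : {t : ℕ | t ∈ (Ioc N (2 * N)).filter Nat.Prime ∧ (q : ℤ) ∣ (t : ℤ) - ρ} = ∅ := by
      ext t
      simp only [Finset.mem_filter, Finset.mem_Ioc, Set.mem_ofPred_eq, Set.mem_empty_iff_false,
        iff_false]
      rintro ⟨⟨⟨h1, h2⟩, hp⟩, h3⟩
      apply h
      have h4 : IsCoprime (t : ℤ) (q : ℤ) := by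
        rw [Nat.isCoprime_iff_coprime, hp.coprime_iff_not_dvd]
        intro h5
        have := Nat.le_of_dvd (by omega) h5
        omega
      obtain ⟨k, hk⟩ := h3
      have h6 : ρ = t + q * (-k) := by linear_combination -hk
      rw [h6]
      exact (IsCoprime.add_mul_left_left_iff).2 h4
    rw [he, Set.ncard_empty, Nat.cast_zero, zero_div]

theorem regular_primes : Regular (fun N => (Ioc N (2 * N)).filter Nat.Prime) (fun t => (t : ℤ)) X := by
  classical
  refine regular_of dp primes_dens ?_ ?_ ?_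
  · intro q q' _ _ hc r
    have hm : IsCoprime r ((q * q' : ℕ) : ℤ) ↔ IsCoprime r (q : ℤ) ∧ IsCoprime r (q' : ℤ) := by
      rw [Nat.cast_mul, IsCoprime.mul_right_iff]
    unfold dp
    by_cases h1 : IsCoprime r (q : ℤ)
    · by_cases h2 : IsCoprime r (q' : ℤ)
      · rw [if_pos (hm.2 ⟨h1, h2⟩), if_pos h1, if_pos h2, Nat.totient_mul hc]
        push_cast
        rw [mul_inv]
      · rw [if_neg (fun h => h2 (hm.1 h).2), if_neg h2, mul_zero]
    · rw [if_neg (fun h => h1 (hm.1 h).1), if_neg h1, zero_mul]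
  · intro q ρ ρ' h
    unfold dp
    have h1 : IsCoprime ρ (q : ℤ) ↔ IsCoprime ρ' (q : ℤ) := by
      obtain ⟨k, hk⟩ := h
      have h6 : ρ = ρ' + q * k := by linear_combination hk
      rw [h6]
      exact IsCoprime.add_mul_left_left_iff
    simp only [h1]
  · intro p hp ρ hρ
    rw [eval_X] at hρ
    unfold dp
    have h1 : IsCoprime ρ ((p ^ 2 : ℕ) : ℤ) := by
      push_cast
      exact (((Nat.prime_iff_prime_int.1 hp).coprime_iff_not_dvd.2 hρ).symm).pow_right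
    rw [if_pos h1, ← one_div]
    have h2 : 0 < (p ^ 2).totient := Nat.totient_pos.2 (Nat.pow_pos hp.pos)
    have h3 : ((p ^ 2).totient : ℝ) ≤ (p : ℝ) ^ 2 := by exact_mod_cast Nat.totient_le (p ^ 2)
    exact one_div_le_one_div_of_le (by exact_mod_cast h2) h3

end Pool.Agent.V7H38.BS
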