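import Pool.Agent.V7H38.BS.Mom
import Pool.Agent.N680.TH.Thin

/-! # Sequences with regular distribution modulo all integers, and values of polynomials -/

set_option autoImplicit false
set_option linter.unusedSectionVars false

namespace Pool.Agent.V7H38.BS

open Finset Filter Polynomial
open Pool.Agent.N666.TM (NullIn diag)
open Pool.Agent.N680.TH (Once null_iUnion)

/-- the integers `u t`, `t ∈ S N`, have a limiting distribution modulo all integers, which is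
multiplicative and has density at least `c / p ^ 2` in the classes `ρ` modulo `p ^ 2` for which
`A(ρ)` is not divisible by `p` (`p` large) -/
def Regular (S : ℕ → Finset ℕ) (u : ℕ → ℤ) (A : ℤ[X]) : Prop :=
  ∃ d : ℕ → ℤ → ℝ,
    (∀ q : ℕ, 1 ≤ q → ∀ ρ : ℤ, Tendsto
      (fun N => ({t : ℕ | t ∈ S N ∧ (q : ℤ) ∣ u t - ρ}.ncard : ℝ) / (S N).card)
      atTop (nhds (d q ρ))) ∧
    (∀ q q' : ℕ, 1 ≤ q → 1 ≤ q' → q.Coprime q' → ∀ ρ ρ' : ℤ, Tendsto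
      (fun N => ({t : ℕ | t ∈ S N ∧ (q : ℤ) ∣ u t - ρ ∧ (q' : ℤ) ∣ u t - ρ'}.ncard : ℝ) /
        (S N).card) atTop (nhds (d q ρ * d q' ρ'))) ∧
    ∃ c : ℝ, 0 < c ∧ ∃ p₀ : ℕ, ∀ p : ℕ, p.Prime → p₀ < p → ∀ ρ : ℤ, ¬ (p : ℤ) ∣ A.eval ρ →
      c / (p : ℝ) ^ 2 ≤ d (p ^ 2) ρ

/-- the set of `t` with `u t` in a class -/
def cl (u : ℕ → ℤ) (q : ℕ) (ρ : ℤ) : Set ℕ := {t | (q : ℤ) ∣ u t - ρ}

/-- the set of `t` such that `p` divides `F(u t)` exactly once -/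
def Ev (u : ℕ → ℤ) (F : ℤ[X]) (p : ℕ) : Set ℕ := {t | Once p (F.eval (u t))}

open Classical in
/-- the classes modulo `p ^ 2` in which `p` divides the value of `F` exactly once -/
noncomputable def Rs (F : ℤ[X]) (p : ℕ) : Finset ℕ :=
  (Finset.range (p ^ 2)).filter (fun ρ => Once p (F.eval (ρ : ℤ)))

theorem once_congr {F : ℤ[X]} {p : ℕ} {x y : ℤ} (h : (p : ℤ) ^ 2 ∣ x - y) :
    Once p (F.eval x) ↔ Once p (F.eval y) := by
  have h1 : (p : ℤ) ^ 2 ∣ F.eval x - F.eval y := h.trans (Polynomial.sub_dvd_eval_sub x y F)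
  have h2 : (p : ℤ) ∣ F.eval x - F.eval y := (dvd_pow_self (p : ℤ) two_ne_zero).trans h1
  unfold Once
  rw [dvd_iff_dvd_of_dvd_sub h2, dvd_iff_dvd_of_dvd_sub h1]

theorem ι_Ev {u : ℕ → ℤ} {F : ℤ[X]} {p : ℕ} (hp : 0 < p) (t : ℕ) :
    ι (Ev u F p) t = ∑ ρ ∈ Rs F p, ι (cl u (p ^ 2) ρ) t := by
  classical
  have hp2 : (0 : ℤ) < ((p ^ 2 : ℕ) : ℤ) := by positivity
  set r : ℕ := (u t % ((p ^ 2 : ℕ) : ℤ)).toNat with hr
  have hr0 : ((r : ℕ) : ℤ) = u t % ((p ^ 2 : ℕ) : ℤ) := by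
    rw [hr, Int.toNat_of_nonneg (Int.emod_nonneg _ hp2.ne')]
  have hrlt : r < p ^ 2 := by
    have := Int.emod_lt_of_pos (u t) hp2
    rw [← hr0] at this
    exact_mod_cast this
  have hdvd : ((p ^ 2 : ℕ) : ℤ) ∣ u t - r := by
    rw [hr0]
    exact Int.dvd_self_sub_emod
  have huniq : ∀ ρ ∈ Finset.range (p ^ 2), ((p ^ 2 : ℕ) : ℤ) ∣ u t - ρ → ρ = r := by
    intro ρ hρ h
    rw [Finset.mem_range] at hρ
    have h1 : ((p ^ 2 : ℕ) : ℤ) ∣ (ρ : ℤ) - r := by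
      have := dvd_sub hdvd h
      rwa [show u t - (r : ℤ) - (u t - ρ) = (ρ : ℤ) - r by ring] at this
    have h2 : (ρ : ℤ) ≡ r [ZMOD ((p ^ 2 : ℕ) : ℤ)] := (Int.modEq_iff_dvd.2 h1).symm
    have h3 := (Int.natCast_modEq_iff).1 h2
    exact Nat.ModEq.eq_of_lt_of_lt h3 hρ hrlt
  have hEv : t ∈ Ev u F p ↔ r ∈ Rs F p := by
    unfold Ev Rs
    rw [Finset.mem_filter, Finset.mem_range, Set.mem_ofPred_eq]
    rw [once_congr (F := F) (p := p) (x := u t) (y := r) (by exact_mod_cast hdvd)]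
    exact ⟨fun h => ⟨hrlt, h⟩, fun h => h.2⟩
  by_cases hrR : r ∈ Rs F p
  · rw [Finset.sum_eq_single r]
    · unfold ι
      rw [if_pos (hEv.2 hrR), if_pos (show t ∈ cl u (p ^ 2) r from hdvd)]
    · intro ρ hρ hne
      unfold ι
      rw [if_neg]
      intro h
      exact hne (huniq ρ (Finset.mem_of_mem_filter ρ hρ) h)
    · intro h
      exact absurd hrR h
  · rw [Finset.sum_eq_zero]
    · unfold ι
      rw [if_neg (fun h => hrR (hEv.1 h))]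
    · intro ρ hρ
      unfold ι
      rw [if_neg]
      intro h
      have := huniq ρ (Finset.mem_of_mem_filter ρ hρ) h
      exact hrR (this ▸ hρ)

theorem mean_congr {S : ℕ → Finset ℕ} {f g : ℕ → ℝ} (h : ∀ t, f t = g t) : mean S f = mean S g := by
  rw [show f = g from funext h]

/-- the density of the events -/
theorem dens_Ev {S : ℕ → Finset ℕ} {u : ℕ → ℤ} {d : ℕ → ℤ → ℝ}
    (h1 : ∀ q : ℕ, 1 ≤ q → ∀ ρ : ℤ, Tendsto
      (fun N => ({t : ℕ | t ∈ S N ∧ (q : ℤ) ∣ u t - ρ}.ncard : ℝ) / (S N).card)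
      atTop (nhds (d q ρ))) (F : ℤ[X]) {p : ℕ} (hp : 0 < p) :
    Tendsto (mean S (ι (Ev u F p))) atTop (nhds (∑ ρ ∈ Rs F p, d (p ^ 2) ρ)) := by
  rw [mean_congr (ι_Ev hp)]
  refine mean_sum _ _ _ fun ρ _ => ?_
  have h2 := h1 (p ^ 2) (Nat.pow_pos hp) ρ
  refine h2.congr fun N => ?_
  unfold mean
  rw [← ncard_ind]
  rfl

theorem dens_Ev2 {S : ℕ → Finset ℕ} {u : ℕ → ℤ} {d : ℕ → ℤ → ℝ}
    (h2 : ∀ q q' : ℕ, 1 ≤ q → 1 ≤ q' → q.Coprime q' → ∀ ρ ρ' : ℤ, Tendsto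
      (fun N => ({t : ℕ | t ∈ S N ∧ (q : ℤ) ∣ u t - ρ ∧ (q' : ℤ) ∣ u t - ρ'}.ncard : ℝ) /
        (S N).card) atTop (nhds (d q ρ * d q' ρ'))) (F : ℤ[X]) {p p' : ℕ} (hp : 0 < p) (hp' : 0 < p')
    (hc : p.Coprime p') :
    Tendsto (mean S (fun t => ι (Ev u F p) t * ι (Ev u F p') t)) atTop
      (nhds ((∑ ρ ∈ Rs F p, d (p ^ 2) ρ) * ∑ ρ ∈ Rs F p', d (p' ^ 2) ρ)) := by
  have e : ∀ t, ι (Ev u F p) t * ι (Ev u F p') t =
      ∑ ρ ∈ Rs F p, ∑ ρ' ∈ Rs F p', ι (cl u (p ^ 2) ρ ∩ cl u (p' ^ 2) ρ') t := by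
    intro t
    rw [ι_Ev hp, ι_Ev hp', Finset.sum_mul_sum]
    simp only [ι_inter]
  rw [mean_congr e, Finset.sum_mul_sum]
  refine mean_sum _ _ _ fun ρ _ => mean_sum _ _ _ fun ρ' _ => ?_
  have h3 := h2 (p ^ 2) (p' ^ 2) (Nat.pow_pos hp) (Nat.pow_pos hp') (Nat.Coprime.pow 2 2 hc) ρ ρ'
  refine h3.congr fun N => ?_
  unfold mean
  rw [← ncard_ind]
  rfl

theorem nonneg_of_tendsto {S : ℕ → Finset ℕ} {A : Set ℕ} {L : ℝ}
    (h : Tendsto (fun N => ({t : ℕ | t ∈ S N ∧ t ∈ A}.ncard : ℝ) / (S N).card) atTop (nhds L)) :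
    0 ≤ L :=
  ge_of_tendsto' h fun N => by positivity

/-- a simple zero modulo `p` at which `A` does not vanish -/
def SimpleRoot (F A : ℤ[X]) (p : ℕ) : Prop :=
  ∃ ρ : ℤ, (p : ℤ) ∣ F.eval ρ ∧ ¬ (p : ℤ) ∣ F.derivative.eval ρ ∧ ¬ (p : ℤ) ∣ A.eval ρ

theorem lower {d : ℕ → ℤ → ℝ} {c : ℝ} (hc : 0 < c) {F A : ℤ[X]} {p : ℕ} (hp : p.Prime)
    (hd0 : ∀ ρ : ℤ, 0 ≤ d (p ^ 2) ρ)
    (hd : ∀ ρ : ℤ, ¬ (p : ℤ) ∣ A.eval ρ → c / (p : ℝ) ^ 2 ≤ d (p ^ 2) ρ)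
    (hs : SimpleRoot F A p) : c / 2 * (1 / p) ≤ ∑ ρ ∈ Rs F p, d (p ^ 2) ρ := by
  classical
  obtain ⟨ρ₀, h1, h2, h3⟩ := hs
  have hp0 : (0 : ℤ) < p := by exact_mod_cast hp.pos
  -- a representative
  set r : ℕ := (ρ₀ % (p : ℤ)).toNat with hr
  have hr0 : ((r : ℕ) : ℤ) = ρ₀ % (p : ℤ) := by
    rw [hr, Int.toNat_of_nonneg (Int.emod_nonneg _ hp0.ne')]
  have hrlt : r < p := by
    have := Int.emod_lt_of_pos ρ₀ hp0
    rw [← hr0] at this
    exact_mod_cast this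
  have hcg : ∀ G : ℤ[X], ∀ k : ℕ, ((p : ℤ) ∣ G.eval ((r + p * k : ℕ) : ℤ) ↔ (p : ℤ) ∣ G.eval ρ₀) := by
    intro G k
    apply dvd_iff_dvd_of_dvd_sub
    refine dvd_trans ?_ (Polynomial.sub_dvd_eval_sub _ _ G)
    push_cast
    rw [hr0]
    have e : ρ₀ % (p : ℤ) + p * k - ρ₀ = p * k - (ρ₀ - ρ₀ % (p : ℤ)) := by ring
    rw [e]
    exact dvd_sub (Dvd.intro _ rfl) Int.dvd_self_sub_emod
  -- the good lifts
  set Bad : Finset ℕ := (Finset.range p).filter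
    (fun k => (p : ℤ) ^ 2 ∣ F.eval ((r + p * k : ℕ) : ℤ)) with hBad
  have hBad1 : Bad.card ≤ 1 := by
    rw [Finset.card_le_one]
    intro k hk k' hk'
    rw [hBad, Finset.mem_filter, Finset.mem_range] at hk hk'
    obtain ⟨w, hw⟩ := Polynomial.binomExpansion F ((r : ℕ) : ℤ) ((p * k : ℕ) : ℤ)
    obtain ⟨w', hw'⟩ := Polynomial.binomExpansion F ((r : ℕ) : ℤ) ((p * k' : ℕ) : ℤ)
    have e1 : (p : ℤ) ^ 2 ∣ F.derivative.eval ((r : ℕ) : ℤ) * (p * ((k : ℤ) - k')) := by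
      have h4 := dvd_sub hk.2 hk'.2
      push_cast at h4 hw hw'
      rw [hw, hw'] at h4
      have h5 : F.derivative.eval ((r : ℕ) : ℤ) * (p * ((k : ℤ) - k')) =
          (F.eval ((r : ℕ) : ℤ) + F.derivative.eval ((r : ℕ) : ℤ) * (p * k) + w * (p * k) ^ 2 -
            (F.eval ((r : ℕ) : ℤ) + F.derivative.eval ((r : ℕ) : ℤ) * (p * k') + w' * (p * k') ^ 2))
            - (p : ℤ) ^ 2 * (w * k ^ 2 - w' * k' ^ 2) := by ring
      rw [h5]
      exact dvd_sub h4 (Dvd.intro _ rfl)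
    have e2 : (p : ℤ) ∣ F.derivative.eval ((r : ℕ) : ℤ) * ((k : ℤ) - k') := by
      have : (p : ℤ) * p ∣ p * (F.derivative.eval ((r : ℕ) : ℤ) * ((k : ℤ) - k')) := by
        convert e1 using 1
        · ring
        · ring
      exact (mul_dvd_mul_iff_left hp0.ne').1 this
    rcases (Nat.prime_iff_prime_int.1 hp).dvd_or_dvd e2 with h6 | h6
    · exfalso
      apply h2
      rw [← hcg F.derivative 0, mul_zero, add_zero]
      exact h6
    · have h7 : (k' : ℤ) ≡ k [ZMOD (p : ℤ)] := Int.modEq_iff_dvd.2 h6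
      have h8 := (Int.natCast_modEq_iff).1 h7
      exact (Nat.ModEq.eq_of_lt_of_lt h8 hk'.1 hk.1).symm
  set Good : Finset ℕ := (Finset.range p).filter
    (fun k => ¬ (p : ℤ) ^ 2 ∣ F.eval ((r + p * k : ℕ) : ℤ)) with hGood
  have hGB : Bad.card + Good.card = p := by
    rw [hBad, hGood, Finset.card_filter_add_card_filter_not, Finset.card_range]
  have hGcard : p ≤ Good.card + 1 := by omega
  have hsub : Good.image (fun k => r + p * k) ⊆ Rs F p := by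
    intro ρ hρ
    rw [Finset.mem_image] at hρ
    obtain ⟨k, hk, rfl⟩ := hρ
    rw [hGood, Finset.mem_filter, Finset.mem_range] at hk
    unfold Rs
    rw [Finset.mem_filter, Finset.mem_range]
    refine ⟨?_, (hcg F k).2 h1, hk.2⟩
    have : p * k + p ≤ p * p := by nlinarith [hk.1]
    nlinarith
  have hinj : Set.InjOn (fun k => r + p * k) (Good : Set ℕ) := by
    intro a _ b _ hab
    have h4 : r + p * a = r + p * b := hab
    exact Nat.eq_of_mul_eq_mul_left hp.pos (by omega)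
  have hp0R : (0 : ℝ) < p := by exact_mod_cast hp.pos
  have hp2R : (2 : ℝ) ≤ p := by exact_mod_cast hp.two_le
  calc c / 2 * (1 / p) ≤ ((p : ℝ) - 1) * (c / (p : ℝ) ^ 2) := by
        rw [div_mul_div_comm, mul_one, ← mul_div_assoc, div_le_div_iff₀ (by positivity) (by positivity)]
        nlinarith [mul_pos hc hp0R, mul_nonneg hc.le (mul_nonneg hp0R.le (by linarith : (0 : ℝ) ≤ p - 2))]
    _ ≤ Good.card * (c / (p : ℝ) ^ 2) := by
        gcongr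
        have : (p : ℝ) ≤ Good.card + 1 := by exact_mod_cast hGcard
        linarith
    _ = ∑ k ∈ Good, c / (p : ℝ) ^ 2 := by rw [Finset.sum_const, nsmul_eq_mul]
    _ ≤ ∑ k ∈ Good, d (p ^ 2) ((r + p * k : ℕ) : ℤ) := by
        refine Finset.sum_le_sum fun k hk => hd _ fun h => h3 ((hcg A k).1 h)
    _ = ∑ ρ ∈ Good.image (fun k => r + p * k), d (p ^ 2) ((ρ : ℕ) : ℤ) := by
        rw [Finset.sum_image hinj]
    _ ≤ _ := Finset.sum_le_sum_of_subset_of_nonneg hsub fun ρ _ _ => hd0 _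

/-- Almost all values `F(u t)` are divisible exactly once by a prime of a set of primes with divergent
sum of reciprocals, modulo which `F` has a simple zero. -/
theorem null_of_div {S : ℕ → Finset ℕ} {u : ℕ → ℤ} {A : ℤ[X]} (hR : Regular S u A) (F : ℤ[X])
    (Ps : Set ℕ) (hPs : ∀ p ∈ Ps, p.Prime) (hroot : ∀ p ∈ Ps, SimpleRoot F A p)
    (hdiv : ¬ Summable (fun n : ℕ => Ps.indicator (fun n : ℕ => (1 : ℝ) / n) n)) :
    NullIn S {t | ¬ ∃ p ∈ Ps, Once p (F.eval (u t))} := by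
  classical
  obtain ⟨d, h1, h2, c, hc, p₀, hd⟩ := hR
  set Ps' : Set ℕ := {p | p ∈ Ps ∧ p₀ < p} with hPs'
  have hdiv' : ¬ Summable (fun n : ℕ => Ps'.indicator (fun n : ℕ => (1 : ℝ) / n) n) := by
    intro hsum
    apply hdiv
    refine (summable_nat_add_iff (p₀ + 1)).1 ?_
    refine ((summable_nat_add_iff (p₀ + 1)).2 hsum).congr fun n => ?_
    by_cases h : n + (p₀ + 1) ∈ Ps
    · rw [Set.indicator_of_mem h, Set.indicator_of_mem (show n + (p₀ + 1) ∈ Ps' from ⟨h, by omega⟩)]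
    · rw [Set.indicator_of_notMem h, Set.indicator_of_notMem (fun h' => h h'.1)]
  have hd0 : ∀ q : ℕ, 1 ≤ q → ∀ ρ : ℤ, 0 ≤ d q ρ := fun q hq ρ =>
    nonneg_of_tendsto (A := cl u q ρ) (h1 q hq ρ)
  have key := moment (S := S) Ps' (Ev u F) (fun p => ∑ ρ ∈ Rs F p, d (p ^ 2) ρ)
    (fun p hp => dens_Ev h1 F (hPs p hp.1).pos)
    (fun p hp p' hp' hne => dens_Ev2 h2 F (hPs p hp.1).pos (hPs p' hp'.1).pos
      ((Nat.coprime_primes (hPs p hp.1) (hPs p' hp'.1)).2 hne))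
    (by
      intro M
      obtain ⟨y, hy⟩ : ∃ y : ℕ, 2 / c * M ≤ ∑ p ∈ Finset.range y,
          Ps'.indicator (fun n : ℕ => (1 : ℝ) / n) p := by
        have hnn : ∀ p : ℕ, 0 ≤ Ps'.indicator (fun n : ℕ => (1 : ℝ) / n) p := by
          intro p
          apply Set.indicator_nonneg
          intro _ _
          positivity
        have ht := (not_summable_iff_tendsto_nat_atTop_of_nonneg hnn).mp hdiv'
        exact (ht.eventually_ge_atTop _).exists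
      refine ⟨(Finset.range y).filter (fun p => p ∈ Ps'), fun p hp => (Finset.mem_filter.1 hp).2, ?_⟩
      have h3 : ∑ p ∈ Finset.range y, Ps'.indicator (fun n : ℕ => (1 : ℝ) / n) p =
          ∑ p ∈ (Finset.range y).filter (fun p => p ∈ Ps'), 1 / (p : ℝ) := by
        rw [Finset.sum_filter]
        refine Finset.sum_congr rfl fun p _ => ?_
        by_cases h : p ∈ Ps'
        · rw [Set.indicator_of_mem h, if_pos h]
        · rw [Set.indicator_of_notMem h, if_neg h]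
      rw [h3] at hy
      calc M = c / 2 * (2 / c * M) := by field_simp
        _ ≤ c / 2 * ∑ p ∈ (Finset.range y).filter (fun p => p ∈ Ps'), 1 / (p : ℝ) := by gcongr
        _ = ∑ p ∈ (Finset.range y).filter (fun p => p ∈ Ps'), c / 2 * (1 / (p : ℝ)) := by
            rw [Finset.mul_sum]
        _ ≤ _ := Finset.sum_le_sum fun p hp => by
            have hp' := (Finset.mem_filter.1 hp).2
            have hpp := hPs p hp'.1
            exact lower hc hpp (hd0 _ (Nat.pow_pos hpp.pos)) (hd p hpp hp'.2) (hroot p hp'.1))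
  intro ε hε
  obtain ⟨N₀, hN₀⟩ := key ε hε
  refine ⟨N₀, fun N hN => le_trans ?_ (hN₀ N hN)⟩
  have hfin : {t : ℕ | t ∈ S N ∧ t ∈ {t | ¬ ∃ p ∈ Ps', t ∈ Ev u F p}}.Finite :=
    (S N).finite_toSet.subset fun t ht => ht.1
  have hsub : {t : ℕ | t ∈ S N ∧ t ∈ {t | ¬ ∃ p ∈ Ps, Once p (F.eval (u t))}} ⊆
      {t : ℕ | t ∈ S N ∧ t ∈ {t | ¬ ∃ p ∈ Ps', t ∈ Ev u F p}} := by
    rintro t ⟨ht, ht'⟩
    exact ⟨ht, fun ⟨p, hp, h⟩ => ht' ⟨p, hp.1, h⟩⟩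
  exact_mod_cast Set.ncard_le_ncard hsub hfin

/-- One null set for countably many polynomials and sets of primes. -/
theorem one_null {S₁ S₂ : ℕ → Finset ℕ} (hS₁ : ∀ N, S₁ N ⊆ Ioc N (2 * N))
    (hS₂ : ∀ N, S₂ N ⊆ Ioc N (2 * N)) {u : ℕ → ℤ} {A : ℤ[X]} (h₁ : Regular S₁ u A)
    (h₂ : Regular S₂ u A) {I : Type} [Countable I] (F : I → ℤ[X]) (Ps : I → Set ℕ)
    (hPs : ∀ i, ∀ p ∈ Ps i, p.Prime) (hroot : ∀ i, ∀ p ∈ Ps i, SimpleRoot (F i) A p)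
    (hdiv : ∀ i, ¬ Summable (fun n : ℕ => (Ps i).indicator (fun n : ℕ => (1 : ℝ) / n) n)) :
    ∃ E : Set ℕ, NullIn S₁ E ∧ NullIn S₂ E ∧
      ∀ i, {t : ℕ | t ∉ E ∧ ¬ ∃ p ∈ Ps i, Once p ((F i).eval (u t))}.Finite := by
  classical
  have hb : ∀ i, NullIn S₁ {t : ℕ | ¬ ∃ p ∈ Ps i, Once p ((F i).eval (u t))} ∧ NullIn S₂
      {t : ℕ | ¬ ∃ p ∈ Ps i, Once p ((F i).eval (u t))} := fun i =>
    ⟨null_of_div h₁ (F i) (Ps i) (hPs i) (hroot i) (hdiv i),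
      null_of_div h₂ (F i) (Ps i) (hPs i) (hroot i) (hdiv i)⟩
  rcases isEmpty_or_nonempty I with hI | hI
  · refine ⟨∅, ?_, ?_, fun i => (hI.false i).elim⟩ <;>
    · intro ε hε
      refine ⟨0, fun N _ => ?_⟩
      simp only [Set.mem_empty_iff_false, and_false, Set.ofPred_false, Set.ncard_empty,
        Nat.cast_zero]
      positivity
  obtain ⟨e, he⟩ := exists_surjective_nat I
  set E : ℕ → Set ℕ := fun k => {n | ∃ i ≤ k,
    n ∈ {t : ℕ | ¬ ∃ p ∈ Ps (e i), Once p ((F (e i)).eval (u t))}} with hE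
  have hmono : Monotone E := by
    intro k k' hk n hn
    obtain ⟨i, hi, hn⟩ := hn
    exact ⟨i, hi.trans hk, hn⟩
  obtain ⟨E', h1, h2, h3⟩ := diag hmono hS₁ hS₂ (fun k => null_iUnion (fun i => (hb (e i)).1) k)
    (fun k => null_iUnion (fun i => (hb (e i)).2) k)
  refine ⟨E', h1, h2, fun i => ?_⟩
  obtain ⟨k, rfl⟩ := he i
  refine (h3 k).subset ?_
  rintro n ⟨hn, hn'⟩
  exact ⟨⟨k, le_rfl, hn'⟩, hn⟩

end Pool.Agent.V7H38.BS
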