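import Pool.Agent.R925.FD.Cheb2
import Pool.Agent.TH888.B1.Roots
import Pool.Agent.V7H38.BS.Reg

/-! Primes modulo which a covering has no points over the zeros of `h`, and `F` has a simple zero. -/

set_option autoImplicit false

namespace Pool.Agent.V7H38.BS

open Finset Polynomial NumberField
open Pool.Agent.W401.Cheb Pool.Agent.W723.SecC Pool.Agent.R925.FD

/-- For all but finitely many primes with Frobenius element `τ` the elements of `T` which become
rational modulo `p` are fixed by `τ`, and the elements of `T'` do not vanish. -/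
lemma fixed2 (L : Type) [Field L] [NumberField L] [IsGalois ℚ L] (τ : Gal(L/ℚ))
    (T T' : Finset (𝓞 L)) (hT' : ∀ x ∈ T', x ≠ 0) (m0 : ℕ) (hm0 : 0 < m0) :
    ∃ m : ℕ, 0 < m ∧ ∀ p ∈ frobSet L τ m, ∃ _ : Fact p.Prime, ¬ p ∣ m0 ∧
      ∃ φ : 𝓞 L →+* AlgebraicClosure (ZMod p), (∀ x, φ (τ • x) = φ x ^ p) ∧
        (∀ x ∈ T, φ x ^ p = φ x → τ • x = x) ∧ ∀ x ∈ T', φ x ≠ 0 := by
  classical
  choose mx hmx hmx' using fun x : {x : 𝓞 L // x ≠ 0} => nz L _ x.2
  let f : 𝓞 L → ℕ := fun x => if h : x ≠ 0 then mx ⟨x, h⟩ else 1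
  have hf : ∀ x, 0 < f x := by
    intro x
    simp only [f]
    split_ifs with h
    · exact hmx _
    · exact Nat.one_pos
  refine ⟨m0 * ((∏ x ∈ T, f (τ • x - x)) * ∏ x ∈ T', f x), Nat.mul_pos hm0
    (Nat.mul_pos (Finset.prod_pos fun x _ => hf _) (Finset.prod_pos fun x _ => hf x)), ?_⟩
  intro p hp
  obtain ⟨hpp, hpm, hxp⟩ := hp
  have hF : Fact p.Prime := ⟨hpp⟩
  have hex : ∃ φ : 𝓞 L →+* AlgebraicClosure (ZMod p), HasFrob p φ τ := by
    unfold xp at hxp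
    rw [dif_pos hpp] at hxp
    by_contra h
    push Not at h
    apply hxp
    rw [Nat.card_eq_zero]
    left
    exact ⟨fun x => h x.1 x.2⟩
  obtain ⟨φ, hφ⟩ := hex
  have hne : ∀ x : 𝓞 L, x ≠ 0 → ¬ p ∣ f x → φ x ≠ 0 := by
    intro x hx hpf
    have h3 : f x = mx ⟨x, hx⟩ := dif_pos hx
    refine hmx' ⟨x, hx⟩ _ φ fun h => ?_
    rw [← h3, CharP.cast_eq_zero_iff (AlgebraicClosure (ZMod p)) p] at h
    exact hpf h
  refine ⟨hF, fun h => hpm (h.trans (Dvd.intro _ rfl)), φ, hφ, fun x hx hφx => ?_,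
    fun x hx => hne x (hT' x hx) fun h => hpm ?_⟩
  · by_contra hcon
    have h1 : τ • x - x ≠ 0 := fun h => hcon (sub_eq_zero.1 h)
    refine hne _ h1 (fun h => hpm ?_) ?_
    · exact (h.trans (Finset.dvd_prod_of_mem (fun x => f (τ • x - x)) hx)).trans
        ((Dvd.intro _ rfl).trans (Dvd.intro_left _ rfl))
    · rw [map_sub, hφ x, hφx, sub_self]
  · exact (h.trans (Finset.dvd_prod_of_mem f hx)).trans
      ((Dvd.intro_left _ rfl).trans (Dvd.intro_left _ rfl))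

lemma aeval_eq (θ : AlgebraicClosure ℚ) (G : ℤ[X]) :
    aeval θ G = eval₂ (Int.castRingHom (AlgebraicClosure ℚ)) θ G := by
  rw [aeval_def]
  congr 1

theorem cheb2 {K : Type} [Fintype K] [DecidableEq K] (n : ℕ) (hn : 0 < n) (g : K → ℤ[X]) (h : ℤ[X])
    (hh : h ≠ 0) (hdeg : ∀ k, n ∣ (g k).natDegree) (δ : K → ℤ) (hδ : ∀ k, δ k ≠ 0)
    (σ : AlgebraicClosure ℚ ≃ₐ[ℚ] AlgebraicClosure ℚ)
    (hσ : ∀ β, σ β = β → aeval β h = 0 →
      ∃ k, ∀ y, σ y = y → aeval β (g k) ≠ (δ k : AlgebraicClosure ℚ) * y ^ n)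
    (F A' : ℤ[X]) (θ : AlgebraicClosure ℚ) (hθσ : σ θ = θ) (hθF : aeval θ F = 0)
    (hθF' : aeval θ F.derivative ≠ 0) (hθA : aeval θ A' ≠ 0) :
    ∃ (L : Type) (_ : Field L) (_ : NumberField L) (_ : IsGalois ℚ L) (τ : Gal(L/ℚ)) (m : ℕ),
      0 < m ∧ ∀ p ∈ frobSet L τ m, ¬ R p n g h δ ∧ SimpleRoot F A' p := by
  classical
  rw [aeval_eq] at hθF hθF' hθA
  have hZ : algebraMap ℤ (AlgebraicClosure ℚ) = Int.castRingHom (AlgebraicClosure ℚ) := RingHom.ext_int _ _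
  have hc0 : h.leadingCoeff ≠ 0 := leadingCoeff_ne_zero.2 hh
  set c : ℤ := h.leadingCoeff with hc
  have hcQb : (c : (AlgebraicClosure ℚ)) ≠ 0 := Int.cast_ne_zero.2 hc0
  have hδQb : ∀ k, (δ k : (AlgebraicClosure ℚ)) ≠ 0 := fun k => Int.cast_ne_zero.2 (hδ k)
  -- the finite set
  set s0 : Set (AlgebraicClosure ℚ) := {β | aeval β h = 0} with hs0
  have hs0f : s0.Finite := by
    have h1 : (h.map (Int.castRingHom (AlgebraicClosure ℚ))) ≠ 0 :=
      (Polynomial.map_ne_zero_iff (Int.castRingHom (AlgebraicClosure ℚ)).injective_int).2 hh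
    refine (Polynomial.finite_setOfPred_isRoot h1).subset ?_
    intro β hβ
    have h2 : aeval β h = 0 := hβ
    change (h.map (Int.castRingHom (AlgebraicClosure ℚ))).IsRoot β
    rw [IsRoot.def, eval_map]
    rw [aeval_def, hZ] at h2
    exact h2
  have hYf : ∀ A : (AlgebraicClosure ℚ), {y : (AlgebraicClosure ℚ) | y ^ n = A}.Finite := by
    intro A
    have h1 : (X ^ n - C A : (AlgebraicClosure ℚ)[X]) ≠ 0 := X_pow_sub_C_ne_zero hn A
    refine (Polynomial.finite_setOfPred_isRoot h1).subset ?_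
    intro y hy
    have h2 : y ^ n = A := hy
    change (X ^ n - C A : (AlgebraicClosure ℚ)[X]).IsRoot y
    rw [IsRoot.def, eval_sub, eval_pow, eval_X, eval_C, h2, sub_self]
  set s1 : Set (AlgebraicClosure ℚ) := ⋃ β ∈ s0, ⋃ k : K, {y : (AlgebraicClosure ℚ) | y ^ n = (δ k : (AlgebraicClosure ℚ))⁻¹ * aeval β (g k)} with hs1
  have hs1f : s1.Finite := hs0f.biUnion fun β _ => Set.finite_iUnion fun k => hYf _
  obtain ⟨L, iF, iN, iG, j, τ, hj', hjτ⟩ := exL σ ((s0 ∪ s1) ∪ {θ})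
    ((hs0f.union hs1f).union (Set.finite_singleton θ))
  have hj : ∀ x ∈ s0 ∪ s1, ∃ y, j y = x := fun x hx => hj' x (Or.inl hx)
  have hjinj : Function.Injective j := j.injective
  -- algebraic integers
  let jO : 𝓞 L →+* (AlgebraicClosure ℚ) := j.comp (algebraMap (𝓞 L) L)
  have hjOinj : Function.Injective jO :=
    hjinj.comp (FaithfulSMul.algebraMap_injective (𝓞 L) L)
  have hjOτ : ∀ x : 𝓞 L, jO (τ • x) = σ (jO x) := fun x => hjτ _
  -- the polynomial with the zeros `c β`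
  set Fh : (𝓞 L)[X] := (integralNormalization h).map (Int.castRingHom (𝓞 L)) with hFh
  have hFm : Fh.Monic := (monic_integralNormalization hh).map _
  set A : 𝓞 L → K → 𝓞 L := fun x k => (δ k : 𝓞 L) ^ (n - 1) * hom (g k) x (c : 𝓞 L) with hA
  set T : Finset (𝓞 L) := Fh.roots.toFinset ∪ Fh.roots.toFinset.biUnion fun x =>
    univ.biUnion fun k : K => (X ^ n - C (A x k) : (𝓞 L)[X]).roots.toFinset with hT
  -- the zero `θ`
  have hF0 : F ≠ 0 := by
    rintro rfl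
    rw [derivative_zero, eval₂_zero] at hθF'
    exact hθF' rfl
  have hcF0 : F.leadingCoeff ≠ 0 := leadingCoeff_ne_zero.2 hF0
  set cF : ℤ := F.leadingCoeff with hcF
  obtain ⟨yθ, hyθ⟩ := hj' θ (Or.inr rfl)
  have hyF : aeval yθ F = 0 := by
    apply hjinj
    rw [map_zero, ← hθF, ← hyθ, aeval_def, Polynomial.hom_eval₂]
    congr 1
    exact RingHom.ext_int _ _
  have hint : IsIntegral ℤ (cF • yθ) := isIntegral_leadingCoeff_smul F yθ hyF
  obtain ⟨xθ, hxθ⟩ : ∃ x : 𝓞 L, (x : L) = cF • yθ := ⟨⟨_, hint⟩, rfl⟩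
  have hjx : jO xθ = (cF : (AlgebraicClosure ℚ)) * θ := by
    change j (xθ : L) = _
    rw [hxθ, zsmul_eq_mul, map_mul, map_intCast, hyθ]
  have hτx : τ • xθ = xθ := by
    apply hjOinj
    rw [hjOτ, hjx, map_mul, map_intCast, hθσ]
  have hcFQb : (cF : (AlgebraicClosure ℚ)) ≠ 0 := Int.cast_ne_zero.2 hcF0
  have hhom : ∀ G : ℤ[X], jO (hom G xθ (cF : 𝓞 L)) =
      (cF : (AlgebraicClosure ℚ)) ^ G.natDegree * eval₂ (Int.castRingHom (AlgebraicClosure ℚ)) θ G := by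
    intro G
    rw [hom_map, map_intCast, hjx]
    have e1 : hom G ((cF : (AlgebraicClosure ℚ)) * θ) (cF : (AlgebraicClosure ℚ)) = hom G ((cF : (AlgebraicClosure ℚ)) * θ) ((cF : (AlgebraicClosure ℚ)) * 1) := by
      rw [mul_one]
    rw [e1, hom_mul, hom_one]
  have hF1 : hom F xθ (cF : 𝓞 L) = 0 := by
    apply hjOinj
    rw [hhom, hθF, mul_zero, map_zero]
  have hF2 : hom F.derivative xθ (cF : 𝓞 L) ≠ 0 := by
    intro h0
    have h1 := congrArg jO h0
    rw [hhom, map_zero] at h1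
    exact mul_ne_zero (pow_ne_zero _ hcFQb) hθF' h1
  have hF3 : hom A' xθ (cF : 𝓞 L) ≠ 0 := by
    intro h0
    have h1 := congrArg jO h0
    rw [hhom, map_zero] at h1
    exact mul_ne_zero (pow_ne_zero _ hcFQb) hθA h1
  have hm0 : 0 < c.natAbs * (∏ k, (δ k).natAbs) * cF.natAbs :=
    Nat.mul_pos (Nat.mul_pos (Int.natAbs_pos.2 hc0)
      (Finset.prod_pos fun k _ => Int.natAbs_pos.2 (hδ k))) (Int.natAbs_pos.2 hcF0)
  obtain ⟨m, hm, hfix⟩ := fixed2 L τ T {hom F.derivative xθ (cF : 𝓞 L), hom A' xθ (cF : 𝓞 L)}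
    (by
      intro x hx
      rw [Finset.mem_insert, Finset.mem_singleton] at hx
      rcases hx with rfl | rfl
      · exact hF2
      · exact hF3) _ hm0
  refine ⟨L, iF, iN, iG, τ, m, hm, fun p hp => ?_⟩
  obtain ⟨hpF, hpm', φ, hφfrob, hφ, hφne⟩ := hfix p hp
  have hpm : ¬ p ∣ c.natAbs * (∏ k, (δ k).natAbs) := fun h1 => hpm' (h1.trans (Dvd.intro _ rfl))
  refine ⟨fun hR => ?_, ?_⟩
  swap
  · -- the simple zero
    have hcFp : (cF : ZMod p) ≠ 0 := by
      intro h1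
      have h2 := Int.natCast_dvd.1 ((ZMod.intCast_zmod_eq_zero_iff_dvd _ p).1 h1)
      exact hpm' (h2.trans (Dvd.intro_left _ rfl))
    have hfx : φ xθ ^ p = φ xθ := by rw [← hφfrob, hτx]
    obtain ⟨z, hz⟩ := W54.ChTor.frob_fixed p (φ xθ) hfx
    set ρ₀ : ZMod p := z / (cF : ZMod p) with hρ₀
    have hev : ∀ G : ℤ[X], (p : ℤ) ∣ G.eval ((ρ₀.val : ℕ) : ℤ) ↔
        φ (hom G xθ (cF : 𝓞 L)) = 0 := by
      intro G
      have e1 : φ (hom G xθ (cF : 𝓞 L)) = algebraMap (ZMod p) (AlgebraicClosure (ZMod p))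
          (hom G z (cF : ZMod p)) := by
        rw [hom_map, hom_map, map_intCast, map_intCast, hz]
      rw [e1, map_eq_zero, hom_div _ _ hcFp, mul_eq_zero,
        or_iff_right (pow_ne_zero _ hcFp), ← ZMod.intCast_zmod_eq_zero_iff_dvd]
      have e2 : (Int.castRingHom (ZMod p)) ((ρ₀.val : ℕ) : ℤ) = z / (cF : ZMod p) := by
        rw [eq_intCast, Int.cast_natCast, ZMod.natCast_zmod_val]
      rw [← e2, eval₂_at_apply, eq_intCast]
    refine ⟨((ρ₀.val : ℕ) : ℤ), ?_, ?_, ?_⟩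
    · rw [hev, hF1, map_zero]
    · rw [hev]
      exact hφne _ (Finset.mem_insert_self _ _)
    · rw [hev]
      exact hφne _ (Finset.mem_insert_of_mem (Finset.mem_singleton_self _))
  have hcp : (c : ZMod p) ≠ 0 := by
    intro h1
    have h2 := Int.natCast_dvd.1 ((ZMod.intCast_zmod_eq_zero_iff_dvd _ p).1 h1)
    exact hpm (h2.trans (Dvd.intro _ rfl))
  have hδp : ∀ k, (δ k : ZMod p) ≠ 0 := by
    intro k h1
    have h2 := Int.natCast_dvd.1 ((ZMod.intCast_zmod_eq_zero_iff_dvd _ p).1 h1)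
    exact hpm (h2.trans ((Finset.dvd_prod_of_mem (fun k => (δ k).natAbs) (mem_univ k)).trans
      (Dvd.intro_left _ rfl)))
  obtain ⟨u, v, huv, hhuv, hg⟩ := hR
  have hv : v ≠ 0 := by
    intro hv
    subst hv
    rw [hom_zero_right] at hhuv
    rcases mul_eq_zero.1 hhuv with h1 | h1
    · exact hcp h1
    · exact pow_ne_zero _ (huv.resolve_right (fun h => h rfl)) h1
  have hvn : ∀ n : ℕ, v ^ n ≠ 0 := fun n => pow_ne_zero n hv
  set t : ZMod p := u / v with ht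
  have hht : eval₂ (Int.castRingHom (ZMod p)) t h = 0 := by
    rw [hom_div _ _ hv] at hhuv
    exact (mul_eq_zero.1 hhuv).resolve_left (hvn _)
  have hd1 : 1 ≤ h.natDegree := by
    by_contra hd
    have hd0 : h.natDegree = 0 := by omega
    rw [eq_C_of_natDegree_eq_zero hd0, eval₂_C, eq_intCast] at hht
    apply hcp
    rw [hc, leadingCoeff, hd0]
    exact hht
  set k' := AlgebraicClosure (ZMod p) with hk'
  let ι : ZMod p →+* k' := algebraMap (ZMod p) k'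
  have hφι : ∀ z : ℤ, φ (z : 𝓞 L) = ι (z : ZMod p) := by
    intro z
    rw [map_intCast, map_intCast]
  -- the zero `x0 = c β`
  have hr0 : eval₂ φ (ι ((c : ZMod p) * t)) Fh = 0 := by
    rw [hFh, eval₂_map]
    have e1 : φ.comp (Int.castRingHom (𝓞 L)) = ι.comp (Int.castRingHom (ZMod p)) :=
      RingHom.ext_int _ _
    rw [e1, ← Polynomial.hom_eval₂]
    have e2 := integralNormalization_eval₂_leadingCoeff_mul hd1 (Int.castRingHom (ZMod p)) t
    rw [eq_intCast, hht, mul_zero] at e2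
    rw [e2, map_zero]
  have hsplit : ∀ F : (𝓞 L)[X], F.Monic → (∀ θ : (AlgebraicClosure ℚ), eval₂ jO θ F = 0 → ∃ y, j y = θ) →
      (F.map (algebraMap (𝓞 L) L)).Splits := by
    intro F hFmon hF
    have h6 : ((F.map (algebraMap (𝓞 L) L)).map j).Splits := IsAlgClosed.splits _
    refine Splits.of_splits_map j h6 ?_
    intro θ hθ
    have h7 : ((F.map (algebraMap (𝓞 L) L)).map j).IsRoot θ := Polynomial.isRoot_of_mem_roots hθ
    rw [IsRoot.def, Polynomial.map_map, eval_map] at h7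
    exact hF θ h7
  have hFhroot : ∀ θ : (AlgebraicClosure ℚ), eval₂ jO θ Fh = 0 → aeval (θ / c) h = 0 := by
    intro θ hθ
    rw [hFh, eval₂_map] at hθ
    have e1 : jO.comp (Int.castRingHom (𝓞 L)) = Int.castRingHom (AlgebraicClosure ℚ) := RingHom.ext_int _ _
    rw [e1] at hθ
    have e2 := integralNormalization_eval₂_leadingCoeff_mul hd1 (Int.castRingHom (AlgebraicClosure ℚ)) (θ / c)
    rw [eq_intCast, ← hc, mul_div_cancel₀ _ hcQb, hθ] at e2
    rw [aeval_def, hZ]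
    exact (mul_eq_zero.1 e2.symm).resolve_left (pow_ne_zero _ hcQb)
  have hFhs := hsplit Fh hFm (by
    intro θ hθ
    obtain ⟨y, hy⟩ := hj (θ / c) (Or.inl (hFhroot θ hθ))
    refine ⟨c * y, ?_⟩
    rw [map_mul, hy, map_intCast, mul_div_cancel₀ _ hcQb])
  obtain ⟨x0, hx0, hφx0⟩ := lift_root L Fh hFm hFhs φ _ hr0
  have hx0T : x0 ∈ Fh.roots.toFinset := by
    rw [Multiset.mem_toFinset, mem_roots hFm.ne_zero]
    exact hx0
  have hx0τ : τ • x0 = x0 := hφ x0 (mem_union_left _ hx0T) (by rw [hφx0]; exact algMap_pow _)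
  set β : (AlgebraicClosure ℚ) := jO x0 / c with hβ
  have hβh : aeval β h = 0 := by
    apply hFhroot
    have h1 := congrArg jO hx0
    rw [map_zero, ← eval₂_at_apply] at h1
    exact h1
  have hβσ : σ β = β := by
    rw [hβ, map_div₀, map_intCast, ← hjOτ, hx0τ]
  obtain ⟨k, hk⟩ := hσ β hβσ hβh
  obtain ⟨e, he⟩ := hdeg k
  obtain ⟨y, hy⟩ := hg k
  -- the value of `A`
  have hcx : jO x0 = c * β := by rw [hβ, mul_div_cancel₀ _ hcQb]
  have hjA : jO (A x0 k) = (δ k : (AlgebraicClosure ℚ)) ^ (n - 1) * ((c : (AlgebraicClosure ℚ)) ^ (g k).natDegree * aeval β (g k)) := by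
    rw [hA]
    simp only
    rw [map_mul, map_pow, map_intCast, hom_map, map_intCast, hcx]
    congr 1
    have e1 : hom (g k) ((c : (AlgebraicClosure ℚ)) * β) (c : (AlgebraicClosure ℚ)) = hom (g k) ((c : (AlgebraicClosure ℚ)) * β) ((c : (AlgebraicClosure ℚ)) * 1) := by
      rw [mul_one]
    rw [e1, hom_mul, hom_one, aeval_def, hZ]
  have hn1 : n - 1 + 1 = n := by omega
  set r : ZMod p := (δ k : ZMod p) * (c : ZMod p) ^ e * (y / v ^ e) with hr
  have hφA : φ (A x0 k) = ι (r ^ n) := by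
    rw [hA]
    simp only
    rw [map_mul, map_pow, hφι, hom_map, hφι, hφx0]
    have e1 : hom (g k) (ι ((c : ZMod p) * t)) (ι (c : ZMod p)) =
        ι (hom (g k) ((c : ZMod p) * t) ((c : ZMod p) * 1)) := by
      rw [mul_one, hom_map]
    rw [e1, ← map_pow, ← map_mul]
    congr 1
    rw [hom_mul, hom_one]
    have e2 : eval₂ (Int.castRingHom (ZMod p)) t (g k) = (δ k : ZMod p) * (y / v ^ e) ^ n := by
      rw [hom_div _ _ hv] at hy
      rw [div_pow, ← pow_mul, mul_comm e n, ← he]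
      field_simp
      rw [mul_comm]
      exact hy
    rw [e2, hr, mul_pow, mul_pow, ← pow_mul, mul_comm e n, ← he]
    calc (δ k : ZMod p) ^ (n - 1) * ((c : ZMod p) ^ (g k).natDegree *
          ((δ k : ZMod p) * (y / v ^ e) ^ n))
        = (δ k : ZMod p) ^ (n - 1 + 1) * (c : ZMod p) ^ (g k).natDegree * (y / v ^ e) ^ n := by
          rw [pow_succ]; ring
      _ = _ := by rw [hn1]
  have hFAm : (X ^ n - C (A x0 k) : (𝓞 L)[X]).Monic := monic_X_pow_sub_C _ hn.ne'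
  have hYroot : ∀ Y : (AlgebraicClosure ℚ), Y ^ n = jO (A x0 k) →
      (Y / ((δ k : (AlgebraicClosure ℚ)) * c ^ e)) ^ n = (δ k : (AlgebraicClosure ℚ))⁻¹ * aeval β (g k) := by
    intro Y hY
    rw [div_pow, hY, hjA, mul_pow, ← pow_mul, mul_comm e n, ← he]
    have e3 : (δ k : (AlgebraicClosure ℚ)) ^ n = (δ k : (AlgebraicClosure ℚ)) ^ (n - 1) * δ k := by rw [← pow_succ, hn1]
    rw [e3]
    have e4 : (δ k : (AlgebraicClosure ℚ)) ^ (n - 1) ≠ 0 := pow_ne_zero _ (hδQb k)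
    have e5 : (c : (AlgebraicClosure ℚ)) ^ (g k).natDegree ≠ 0 := pow_ne_zero _ hcQb
    have e6 : (δ k : (AlgebraicClosure ℚ)) ≠ 0 := hδQb k
    generalize (c : (AlgebraicClosure ℚ)) ^ (g k).natDegree = C1 at e5 ⊢
    generalize (δ k : (AlgebraicClosure ℚ)) ^ (n - 1) = D1 at e4 ⊢
    generalize (δ k : (AlgebraicClosure ℚ)) = D2 at e6 ⊢
    generalize (aeval β) (g k) = G1
    rw [div_eq_iff (mul_ne_zero (mul_ne_zero e4 e6) e5)]
    calc D1 * (C1 * G1) = (D2⁻¹ * D2) * (D1 * (C1 * G1)) := by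
          rw [inv_mul_cancel₀ e6, one_mul]
      _ = _ := by ring
  have hFAs := hsplit (X ^ n - C (A x0 k)) hFAm (by
    intro θ hθ
    rw [eval₂_sub, eval₂_pow, eval₂_X, eval₂_C, sub_eq_zero] at hθ
    have h1 := hYroot θ hθ
    obtain ⟨y', hy'⟩ := hj _ (Or.inr (by
      rw [hs1]
      simp only [Set.mem_iUnion]
      exact ⟨β, hβh, k, h1⟩))
    refine ⟨((δ k : L) * c ^ e) * y', ?_⟩
    rw [map_mul, map_mul, map_pow, map_intCast, map_intCast, hy', mul_div_cancel₀]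
    exact mul_ne_zero (hδQb k) (pow_ne_zero _ hcQb))
  obtain ⟨Y, hY, hφY⟩ := lift_root L _ hFAm hFAs φ (ι r) (by
    rw [eval₂_sub, eval₂_pow, eval₂_X, eval₂_C, hφA, map_pow, sub_self])
  have hYT : Y ∈ T := by
    rw [hT]
    refine mem_union_right _ (mem_biUnion.2 ⟨x0, hx0T, mem_biUnion.2 ⟨k, mem_univ k, ?_⟩⟩)
    rw [Multiset.mem_toFinset, mem_roots hFAm.ne_zero]
    exact hY
  have hYτ : τ • Y = Y := hφ Y hYT (by rw [hφY]; exact algMap_pow _)
  have hYn : Y ^ n = A x0 k := by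
    rw [eval_sub, eval_pow, eval_X, eval_C, sub_eq_zero] at hY
    exact hY
  refine hk (jO Y / ((δ k : (AlgebraicClosure ℚ)) * c ^ e)) ?_ ?_
  · rw [map_div₀, map_mul, map_pow, map_intCast, map_intCast, ← hjOτ, hYτ]
  · rw [hYroot (jO Y) (by rw [← map_pow, hYn]), mul_inv_cancel_left₀ (hδQb k)]

end Pool.Agent.V7H38.BS
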