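import Pool.Agent.N92.TC.Cls
import Pool.Agent.V7H38.BS.Cheb

/-! # The classes of coverings and their sets of primes, relative to a polynomial `F` -/

set_option autoImplicit false
set_option linter.unusedSectionVars false

namespace Pool.Agent.V7H38.BS

open Finset Polynomial Pool.Agent.R925.FD Pool.Agent.W401.Cheb Pool.Agent.W723.SecC
open Pool.Agent.TH888.B1 Pool.Agent.N666.TM
open Pool.Agent.N680.TH (Once)
open Pool.Agent.N92.TC (R_reindex)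

/-- `θ` is a simple zero of `F` and not a zero of `A` -/
def SimpleZero (F A : ℤ[X]) (θ : AlgebraicClosure ℚ) : Prop :=
  aeval θ F = 0 ∧ aeval θ F.derivative ≠ 0 ∧ aeval θ A ≠ 0

/-- Every automorphism `σ` of the field of algebraic numbers which fixes a simple zero `θ` of `F`,
`A(θ) ≠ 0`, fixes a zero `β` of `h` and, for every `k`, a solution `y` of
`g k (β) = δ k * y ^ n`. -/
def PersistentOver {K : Type} (F A : ℤ[X]) (n : ℕ) (g : K → ℤ[X]) (h : ℤ[X]) (δ : K → ℚ) : Prop :=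
  ∀ (σ : AlgebraicClosure ℚ ≃ₐ[ℚ] AlgebraicClosure ℚ) (θ : AlgebraicClosure ℚ), σ θ = θ →
    SimpleZero F A θ → ∃ β, σ β = β ∧ aeval β h = 0 ∧
      ∀ k, ∃ y, σ y = y ∧ aeval β (g k) = (δ k : AlgebraicClosure ℚ) * y ^ n

/-- a class which is not persistent, and a number -/
structure Dt (A : ℤ[X]) where
  r : ℕ
  n : ℕ
  g : Fin r → ℤ[X]
  h : ℤ[X]
  s : Fin r → ℤ
  N : ℕ
  F : ℤ[X]
  hn : 0 < n
  hh : h ≠ 0
  hdeg : ∀ k, n ∣ (g k).natDegree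
  hs : ∀ k, s k ≠ 0
  hN : 0 < N
  np : ¬ PersistentOver F A n g h (fun k => (s k : ℚ))

theorem countable_dt (A : ℤ[X]) : Countable (Dt A) := by
  have h1 : Countable ℤ[X] := by
    rw [← Cardinal.mk_le_aleph0_iff]
    refine (Polynomial.cardinalMk_le_max).trans ?_
    simp
  let f : Dt A → Σ r : ℕ, ℕ × (Fin r → ℤ[X]) × ℤ[X] × (Fin r → ℤ) × ℕ × ℤ[X] :=
    fun d => ⟨d.r, d.n, d.g, d.h, d.s, d.N, d.F⟩
  have hf : Function.Injective f := by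
    rintro ⟨r, n, g, h, s, N, F, a1, a2, a3, a4, a5, a6⟩
      ⟨r', n', g', h', s', N', F', b1, b2, b3, b4, b5, b6⟩ heq
    simp only [f] at heq
    obtain ⟨rfl, h2⟩ := Sigma.mk.inj_iff.mp heq
    have h3 := eq_of_heq h2
    simp only [Prod.mk.injEq] at h3
    obtain ⟨rfl, rfl, rfl, rfl, rfl, rfl⟩ := h3
    rfl
  exact hf.countable

/-- the primes at which the class has no point over a zero of `h`, and `F` has a simple zero -/
def Dt.P {A : ℤ[X]} (d : Dt A) : Set ℕ :=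
  {p | p.Prime ∧ ¬ p ∣ d.N ∧ ¬ R p d.n d.g d.h d.s ∧ SimpleRoot d.F A p}

theorem Dt.div {A : ℤ[X]} (d : Dt A) :
    ¬ Summable (fun n : ℕ => d.P.indicator (fun n : ℕ => (1 : ℝ) / n) n) := by
  classical
  have hnp := d.np
  unfold PersistentOver at hnp
  push Not at hnp
  obtain ⟨σ, θ, hσθ, ⟨hθ1, hθ2, hθ3⟩, hσ⟩ := hnp
  obtain ⟨L, iF, iN, iG, τ, m, hm, hL⟩ := cheb2 d.n d.hn d.g d.h d.hh d.hdeg d.s d.hs σ (by
    intro β h1 h2
    obtain ⟨k, hk⟩ := hσ β h1 h2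
    refine ⟨k, fun y hy => ?_⟩
    have h3 := hk y hy
    rw [Rat.cast_intCast] at h3
    exact h3) d.F A θ hσθ hθ1 hθ2 hθ3
  have hM0 : m * d.N ≠ 0 := (Nat.mul_pos hm d.hN).ne'
  have hfin : {p : ℕ | p ∣ m * d.N}.Finite := by
    refine (Set.finite_Iic (m * d.N)).subset fun p hp => ?_
    exact Nat.le_of_dvd (Nat.pos_of_ne_zero hM0) hp
  refine diverges_mono ?_ (diverges_diff hfin (frob_diverges L τ))
  rintro p ⟨⟨hp, hx⟩, hpM⟩
  have hpM' : ¬ p ∣ m * d.N := hpM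
  have h1 := hL p ⟨hp, fun h => hpM' (h.mul_right _), hx⟩
  exact ⟨hp, fun h => hpM' (h.mul_left _), h1.1, h1.2⟩

lemma pers_reindex {K K' : Type} (e : K' ≃ K) (F A : ℤ[X]) (n : ℕ) (g : K → ℤ[X]) (h : ℤ[X])
    (s : K → ℤ) (hp : PersistentOver F A n (g ∘ e) h (fun k => ((s ∘ e) k : ℚ))) :
    PersistentOver F A n g h (fun k => (s k : ℚ)) := by
  intro σ θ hσθ hθ
  obtain ⟨β, h1, h2, h3⟩ := hp σ θ hσθ hθ
  refine ⟨β, h1, h2, fun k => ?_⟩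
  have h4 := h3 (e.symm k)
  simpa using h4

/-- the conclusion of `one` -/
def Rich (F A : ℤ[X]) (E : Set ℕ) (a : ℕ → ℤ) : Prop :=
  ((∃ θ, SimpleZero F A θ) →
    ∀ k : ℕ, {t : ℕ | t ∉ E ∧ ¬ ∃ p : ℕ, p.Prime ∧ k < p ∧ Once p (a t)}.Finite) ∧
  ∀ (K : Type) [Fintype K] (n : ℕ) (g : K → ℤ[X]) (h : ℤ[X]) (s : K → ℤ) (N : ℕ), 0 < n →
    h ≠ 0 → (∀ k, n ∣ (g k).natDegree) → (∀ k, s k ≠ 0) → 0 < N →
    ¬ PersistentOver F A n g h (fun k => (s k : ℚ)) →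
    {t : ℕ | t ∉ E ∧ ¬ ∃ p : ℕ, p.Prime ∧ ¬ p ∣ N ∧ ¬ R p n g h s ∧ Once p (a t)}.Finite

/-- **One null set** for all classes of coverings and all polynomials `F`. -/
theorem one {S₁ S₂ : ℕ → Finset ℕ} (hS₁ : ∀ N, S₁ N ⊆ Ioc N (2 * N))
    (hS₂ : ∀ N, S₂ N ⊆ Ioc N (2 * N)) {u : ℕ → ℤ} {A : ℤ[X]} (h₁ : Regular S₁ u A)
    (h₂ : Regular S₂ u A) :
    ∃ E : Set ℕ, NullIn S₁ E ∧ NullIn S₂ E ∧ ∀ F : ℤ[X], Rich F A E (fun t => F.eval (u t)) := by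
  classical
  have hc := countable_dt A
  obtain ⟨E, e1, e2, e3⟩ := one_null hS₁ hS₂ h₁ h₂ (I := Dt A) (fun d => d.F) Dt.P
    (fun d p hp => hp.1) (fun d p hp => hp.2.2.2) (fun d => d.div)
  refine ⟨E, e1, e2, fun F => ?_⟩
  have hmain : ∀ (K : Type) [Fintype K] (n : ℕ) (g : K → ℤ[X]) (h : ℤ[X]) (s : K → ℤ) (N : ℕ),
      0 < n → h ≠ 0 → (∀ k, n ∣ (g k).natDegree) → (∀ k, s k ≠ 0) → 0 < N →
      ¬ PersistentOver F A n g h (fun k => (s k : ℚ)) →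
      {t : ℕ | t ∉ E ∧ ¬ ∃ p : ℕ, p.Prime ∧ ¬ p ∣ N ∧ ¬ R p n g h s ∧
        Once p (F.eval (u t))}.Finite := by
    intro K _ n g h s N hn hh hdeg hs hN hnp
    let e : Fin (Fintype.card K) ≃ K := (Fintype.equivFin K).symm
    let d : Dt A := ⟨Fintype.card K, n, g ∘ e, h, s ∘ e, N, F, hn, hh, fun k => hdeg (e k),
      fun k => hs (e k), hN, fun hp => hnp (pers_reindex e F A n g h s hp)⟩
    refine (e3 d).subset ?_
    rintro t ⟨ht, hno⟩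
    refine ⟨ht, fun hex => hno ?_⟩
    obtain ⟨p, hp, h1⟩ := hex
    exact ⟨p, hp.1, hp.2.1, fun hR => hp.2.2.1 ((R_reindex e p n g h s).2 hR), h1⟩
  refine ⟨?_, hmain⟩
  rintro ⟨θ, hθ⟩ k
  refine (hmain (Fin 0) 1 (fun _ => 1) 1 (fun _ => 1) (k.factorial) one_pos one_ne_zero
    (fun j => j.elim0) (fun j => j.elim0) (Nat.factorial_pos k) ?_).subset ?_
  · intro hper
    obtain ⟨β, -, h2, -⟩ := hper AlgEquiv.refl θ rfl hθ
    rw [map_one] at h2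
    exact one_ne_zero h2
  · rintro t ⟨ht, hno⟩
    refine ⟨ht, fun hex => hno ?_⟩
    obtain ⟨p, hp, hpk, -, h1⟩ := hex
    refine ⟨p, hp, ?_, h1⟩
    by_contra hle
    exact hpk ((hp.dvd_factorial).2 (not_lt.1 hle))

end Pool.Agent.V7H38.BS
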