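import Pool.Agent.R925.FD.Ex
import Pool.Agent.V7H38.BS.Cls

/-! # Automorphisms which fix an algebraic number of odd degree -/

set_option autoImplicit false

namespace Pool.Agent.V7H38.BS

open Finset Polynomial Pool.Agent.R925.FD
open scoped IntermediateField

section
variable {k W : Type} [Field k] [Field W] [Algebra k W]

open Classical in
/-- the signs by which an automorphism acts on square roots -/
noncomputable def sgn (V : Set W) (hV : ∀ x ∈ V, ∃ q : k, x ^ 2 = algebraMap k W q) :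
    (W ≃ₐ[k] W) →* (V → ℤˣ) where
  toFun σ x := if σ x.1 = x.1 then 1 else -1
  map_one' := by
    funext x
    rw [if_pos (AlgEquiv.one_apply _)]
    rfl
  map_mul' σ τ := by
    funext x
    have hpm : ∀ ρ : W ≃ₐ[k] W, ρ x.1 = x.1 ∨ ρ x.1 = -x.1 := by
      intro ρ
      obtain ⟨q, hq⟩ := hV x.1 x.2
      have h2 : (ρ x.1) ^ 2 = x.1 ^ 2 := by rw [← map_pow, hq, AlgEquiv.commutes]
      exact sq_eq_sq_iff_eq_or_eq_neg.1 h2
    rw [Pi.mul_apply, AlgEquiv.mul_apply]
    by_cases h1 : τ x.1 = x.1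
    · rw [if_pos h1, mul_one, h1]
    · have h1' := (hpm τ).resolve_left h1
      have hne : x.1 ≠ -x.1 := fun h => h1 (by rw [h1', ← h])
      rw [if_neg h1, h1', map_neg]
      rcases hpm σ with h2 | h2
      · rw [h2, if_neg (fun h => hne h.symm), if_pos rfl, one_mul]
      · rw [h2, neg_neg, if_pos rfl, if_neg (fun h => hne h.symm), neg_mul_neg, one_mul]

/-- Every automorphism agrees on finitely many square roots of elements of `k` with an automorphism
which fixes a given element of odd degree. -/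
lemma odd_lift_aux [IsGalois k W] (θ : W) (hodd : Odd (minpoly k θ).natDegree)
    (V : Set W) (hVf : V.Finite) (hV : ∀ x ∈ V, ∃ q : k, x ^ 2 = algebraMap k W q)
    (σ : W ≃ₐ[k] W) : ∃ σ' : W ≃ₐ[k] W, σ' θ = θ ∧ ∀ x ∈ V, σ' x = σ x := by
  classical
  have : Finite V := hVf
  have : Fintype V := Fintype.ofFinite V
  set N : Subgroup (W ≃ₐ[k] W) := (sgn V hV).ker with hN
  set H : Subgroup (W ≃ₐ[k] W) := (k⟮θ⟯).fixingSubgroup with hH
  have hint : IsIntegral k θ := Algebra.IsIntegral.isIntegral θ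
  have hHi : H.index = (minpoly k θ).natDegree := by
    rw [hH, ← IntermediateField.finrank_eq_fixingSubgroup_index,
      IntermediateField.adjoin.finrank hint]
  have hNi : N.index ∣ 2 ^ Fintype.card V := by
    rw [hN, Subgroup.index_ker]
    refine (Subgroup.card_subgroup_dvd_card _).trans ?_
    rw [Nat.card_eq_fintype_card, Fintype.card_fun, Fintype.card_units_int]
  have h1 : (H ⊔ N).index ∣ (minpoly k θ).natDegree := by
    rw [← hHi]
    exact Subgroup.index_dvd_of_le le_sup_left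
  have h2 : (H ⊔ N).index ∣ 2 ^ Fintype.card V := (Subgroup.index_dvd_of_le le_sup_right).trans hNi
  have hcop : Nat.Coprime (minpoly k θ).natDegree (2 ^ Fintype.card V) :=
    Nat.Coprime.pow_right _ (Nat.coprime_two_right.2 hodd)
  have h3 : (H ⊔ N).index = 1 := Nat.eq_one_of_dvd_coprimes hcop h1 h2
  rw [Subgroup.index_eq_one] at h3
  have h4 : σ ∈ H ⊔ N := by
    rw [h3]
    exact Subgroup.mem_top σ
  rw [Subgroup.mem_sup_of_normal_right] at h4
  obtain ⟨τ, hτ, ν, hν, rfl⟩ := h4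
  refine ⟨τ, ?_, fun x hx => ?_⟩
  · rw [hH, IntermediateField.mem_fixingSubgroup_iff] at hτ
    exact hτ θ (IntermediateField.mem_adjoin_simple_self k θ)
  · rw [AlgEquiv.mul_apply]
    congr 1
    rw [hN, MonoidHom.mem_ker] at hν
    have h5 := congrFun hν ⟨x, hx⟩
    change (if ν x = x then (1 : ℤˣ) else -1) = 1 at h5
    by_contra hne
    rw [if_neg (fun h => hne h.symm)] at h5
    exact absurd h5 (by decide)

end

lemma odd_lift {θ : AlgebraicClosure ℚ} (hodd : Odd (minpoly ℚ θ).natDegree)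
    (V : Set (AlgebraicClosure ℚ)) (hVf : V.Finite)
    (hV : ∀ x ∈ V, ∃ q : ℚ, x ^ 2 = (q : AlgebraicClosure ℚ))
    (σ : AlgebraicClosure ℚ ≃ₐ[ℚ] AlgebraicClosure ℚ) :
    ∃ σ' : AlgebraicClosure ℚ ≃ₐ[ℚ] AlgebraicClosure ℚ, σ' θ = θ ∧ ∀ x ∈ V, σ' x = σ x :=
  @odd_lift_aux ℚ (AlgebraicClosure ℚ) _ _ (AlgebraicClosure.instAlgebra ℚ) inferInstance θ hodd V
    hVf (fun x hx => by
      obtain ⟨q, hq⟩ := hV x hx
      exact ⟨q, by rw [hq, eq_ratCast]⟩) σ

/-- If `F` has a simple zero of odd degree, `n = 2`, and for every zero `β` of `h` the numbers `β ^ 2`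
and `g k (β)` are rational, then persistent relative to `F` is the same as persistent. -/
theorem pers_odd {K : Type} [Fintype K] {F A : ℤ[X]} {θ : AlgebraicClosure ℚ}
    (hθ : SimpleZero F A θ) (hodd : Odd (minpoly ℚ θ).natDegree) {g : K → ℤ[X]} {h : ℤ[X]}
    (hh : h ≠ 0) (hsq : ∀ β : AlgebraicClosure ℚ, aeval β h = 0 →
      (∃ q : ℚ, β ^ 2 = (q : AlgebraicClosure ℚ)) ∧
        ∀ k, ∃ q : ℚ, aeval β (g k) = (q : AlgebraicClosure ℚ)) {δ : K → ℚ} (hδ : ∀ k, δ k ≠ 0)
    (hp : PersistentOver F A 2 g h δ) : Persistent 2 g h δ := by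
  classical
  have hZ : algebraMap ℤ (AlgebraicClosure ℚ) = Int.castRingHom (AlgebraicClosure ℚ) := RingHom.ext_int _ _
  intro σ
  set s0 : Set (AlgebraicClosure ℚ) := {β | aeval β h = 0} with hs0
  have hs0f : s0.Finite := by
    have h1 : (h.map (Int.castRingHom (AlgebraicClosure ℚ))) ≠ 0 :=
      (Polynomial.map_ne_zero_iff (Int.castRingHom (AlgebraicClosure ℚ)).injective_int).2 hh
    refine (Polynomial.finite_setOfPred_isRoot h1).subset ?_
    intro β hβ
    have h2 : aeval β h = 0 := hβ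
    change (h.map (Int.castRingHom (AlgebraicClosure ℚ))).IsRoot β
    rw [IsRoot.def, eval_map]
    rw [aeval_def, hZ] at h2
    exact h2
  have hYf : ∀ B : (AlgebraicClosure ℚ), {y : (AlgebraicClosure ℚ) | y ^ 2 = B}.Finite := by
    intro B
    have h1 : (X ^ 2 - C B : (AlgebraicClosure ℚ)[X]) ≠ 0 := X_pow_sub_C_ne_zero two_pos B
    refine (Polynomial.finite_setOfPred_isRoot h1).subset ?_
    intro y hy
    have h2 : y ^ 2 = B := hy
    change (X ^ 2 - C B : (AlgebraicClosure ℚ)[X]).IsRoot y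
    rw [IsRoot.def, eval_sub, eval_pow, eval_X, eval_C, h2, sub_self]
  set s1 : Set (AlgebraicClosure ℚ) := ⋃ β ∈ s0, ⋃ k : K, {y : (AlgebraicClosure ℚ) | y ^ 2 = (δ k : (AlgebraicClosure ℚ))⁻¹ * aeval β (g k)} with hs1
  have hs1f : s1.Finite := hs0f.biUnion fun β _ => Set.finite_iUnion fun k => hYf _
  obtain ⟨σ', hσθ, hσ'⟩ := odd_lift hodd (s0 ∪ s1) (hs0f.union hs1f) (by
    rintro x (hx | hx)
    · exact (hsq x hx).1
    · rw [hs1] at hx
      simp only [Set.mem_iUnion] at hx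
      obtain ⟨β, hβ, k, hk⟩ := hx
      obtain ⟨q, hq⟩ := (hsq β hβ).2 k
      refine ⟨(δ k)⁻¹ * q, ?_⟩
      have hk' : x ^ 2 = (δ k : (AlgebraicClosure ℚ))⁻¹ * aeval β (g k) := hk
      rw [hk', hq, Rat.cast_mul, Rat.cast_inv]) σ
  obtain ⟨β, h1, h2, h3⟩ := hp σ' θ hσθ hθ
  refine ⟨β, ?_, h2, fun k => ?_⟩
  · rw [← hσ' β (Or.inl h2)]
    exact h1
  · obtain ⟨y, hy1, hy2⟩ := h3 k
    refine ⟨y, ?_, hy2⟩
    rw [← hσ' y (Or.inr ?_)]
    · exact hy1
    · rw [hs1]
      simp only [Set.mem_iUnion]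
      refine ⟨β, h2, k, ?_⟩
      have hδ' : (δ k : (AlgebraicClosure ℚ)) ≠ 0 := Rat.cast_ne_zero.2 (hδ k)
      change y ^ 2 = (δ k : (AlgebraicClosure ℚ))⁻¹ * aeval β (g k)
      rw [hy2, inv_mul_cancel_left₀ hδ']

/-- If `F` has a simple rational zero, persistent relative to `F` is the same as persistent. -/
theorem pers_rat {K : Type} {F A : ℤ[X]} {r : ℚ} (hr : SimpleZero F A (r : AlgebraicClosure ℚ))
    {n : ℕ} {g : K → ℤ[X]} {h : ℤ[X]} {δ : K → ℚ} (hp : PersistentOver F A n g h δ) :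
    Persistent n g h δ := fun σ => hp σ r (map_ratCast σ r) hr

theorem pers_over {K : Type} (F A : ℤ[X]) {n : ℕ} {g : K → ℤ[X]} {h : ℤ[X]} {δ : K → ℚ}
    (hp : Persistent n g h δ) : PersistentOver F A n g h δ := fun σ _ _ _ => hp σ

/-- the example satisfies the hypothesis -/
theorem ex_sq (β : AlgebraicClosure ℚ) (hβ : aeval β exh = 0) :
    (∃ q : ℚ, β ^ 2 = (q : AlgebraicClosure ℚ)) ∧
      ∀ k, ∃ q : ℚ, aeval β (exg k) = (q : AlgebraicClosure ℚ) := by
  obtain ⟨q, hq⟩ : ∃ q : ℚ, β ^ 2 = (q : AlgebraicClosure ℚ) := by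
    rcases aeval_exh β hβ with h | h | h
    · exact ⟨-1, by rw [h]; push_cast; ring⟩
    · exact ⟨17, by rw [h]; push_cast; ring⟩
    · exact ⟨-17, by rw [h]; push_cast; ring⟩
  refine ⟨⟨q, hq⟩, fun k => ?_⟩
  fin_cases k
  · refine ⟨q + 51, ?_⟩
    change aeval β (exg 0) = _
    rw [aeval_exg0, hq]
    push_cast
    ring
  · refine ⟨q - 1, ?_⟩
    change aeval β (X ^ 2 - 1 : ℤ[X]) = _
    rw [map_sub, map_pow, aeval_X, map_one, hq]
    push_cast
    ring

end Pool.Agent.V7H38.BS
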