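import Pool.Agent.N666.TM.Diag

/-! # The second moment method for densities along sets `S N` -/

set_option autoImplicit false
set_option linter.unusedSectionVars false

namespace Pool.Agent.V7H38.BS

open Finset Filter
open Pool.Agent.N666.TM (NullIn)

open Classical in
/-- the indicator function -/
noncomputable def ι (A : Set ℕ) (t : ℕ) : ℝ := if t ∈ A then 1 else 0

theorem ncard_ind (s : Finset ℕ) (A : Set ℕ) :
    ({t : ℕ | t ∈ s ∧ t ∈ A}.ncard : ℝ) = ∑ t ∈ s, ι A t := by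
  classical
  have e : {t : ℕ | t ∈ s ∧ t ∈ A} = ↑(s.filter (fun t => t ∈ A)) := by
    ext t
    simp
  rw [e, Set.ncard_coe_finset]
  unfold ι
  rw [Finset.sum_boole]

theorem ι_inter (A B : Set ℕ) (t : ℕ) : ι (A ∩ B) t = ι A t * ι B t := by
  unfold ι
  by_cases h1 : t ∈ A <;> by_cases h2 : t ∈ B <;> simp [h1, h2]

theorem ι_sq (A : Set ℕ) (t : ℕ) : ι A t * ι A t = ι A t := by
  unfold ι
  by_cases h1 : t ∈ A <;> simp [h1]

/-- the mean -/
noncomputable def mean (S : ℕ → Finset ℕ) (f : ℕ → ℝ) (N : ℕ) : ℝ :=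
  (∑ t ∈ S N, f t) / (S N).card

theorem mean_sum {S : ℕ → Finset ℕ} {I : Type} (P : Finset I) (f : I → ℕ → ℝ) (L : I → ℝ)
    (h : ∀ p ∈ P, Tendsto (mean S (f p)) atTop (nhds (L p))) :
    Tendsto (mean S (fun t => ∑ p ∈ P, f p t)) atTop (nhds (∑ p ∈ P, L p)) := by
  have h1 := tendsto_finsetSum P h
  refine h1.congr fun N => ?_
  unfold mean
  rw [Finset.sum_comm, Finset.sum_div]

open Classical in
/-- Events with asymptotic densities `D p` which are asymptotically independent in pairs and for which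
the sum of the densities diverges: almost all `t` belong to one of them. -/
theorem moment {S : ℕ → Finset ℕ} (Ps : Set ℕ) (Ev : ℕ → Set ℕ) (D : ℕ → ℝ)
    (h1 : ∀ p ∈ Ps, Tendsto (mean S (ι (Ev p))) atTop (nhds (D p)))
    (h2 : ∀ p ∈ Ps, ∀ p' ∈ Ps, p ≠ p' →
      Tendsto (mean S (fun t => ι (Ev p) t * ι (Ev p') t)) atTop (nhds (D p * D p')))
    (hdiv : ∀ M : ℝ, ∃ P : Finset ℕ, (∀ p ∈ P, p ∈ Ps) ∧ M ≤ ∑ p ∈ P, D p) :
    NullIn S {t | ¬ ∃ p ∈ Ps, t ∈ Ev p} := by
  intro ε hε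
  obtain ⟨P, hP, hM⟩ := hdiv (2 / ε + 1)
  set μ := ∑ p ∈ P, D p with hμd
  have hμε : 2 / ε ≤ μ := by linarith
  have hμ : 0 < μ := lt_of_lt_of_le (by positivity) hM
  set X : ℕ → ℝ := fun t => ∑ p ∈ P, ι (Ev p) t with hX
  have t1 : Tendsto (mean S X) atTop (nhds μ) := mean_sum P _ _ fun p hp => h1 p (hP p hp)
  have t2 : Tendsto (mean S (fun t => X t ^ 2)) atTop
      (nhds (∑ p ∈ P, ∑ p' ∈ P, if p = p' then D p else D p * D p')) := by
    have e : (fun t => X t ^ 2) = fun t => ∑ p ∈ P, ∑ p' ∈ P, ι (Ev p) t * ι (Ev p') t := by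
      funext t
      rw [hX, pow_two, Finset.sum_mul_sum]
    rw [e]
    refine mean_sum P _ _ fun p hp => mean_sum P _ _ fun p' hp' => ?_
    by_cases h : p = p'
    · subst h
      rw [if_pos rfl]
      have e2 : (fun t => ι (Ev p) t * ι (Ev p) t) = ι (Ev p) := by
        funext t
        exact ι_sq _ _
      rw [e2]
      exact h1 p (hP p hp)
    · rw [if_neg h]
      exact h2 p (hP p hp) p' (hP p' hp') h
  have hb : (∑ p ∈ P, ∑ p' ∈ P, if p = p' then D p else D p * D p') ≤ μ + μ ^ 2 := by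
    have h3 : ∀ p ∈ P, ∀ p' ∈ P, (if p = p' then D p else D p * D p') ≤
        (if p = p' then D p else 0) + D p * D p' := by
      intro p _ p' _
      by_cases h : p = p'
      · subst h
        rw [if_pos rfl, if_pos rfl]
        nlinarith [sq_nonneg (D p)]
      · rw [if_neg h, if_neg h, zero_add]
    refine (Finset.sum_le_sum fun p hp => Finset.sum_le_sum fun p' hp' => h3 p hp p' hp').trans ?_
    simp only [Finset.sum_add_distrib]
    have t4 : ∑ p ∈ P, ∑ p' ∈ P, (if p = p' then D p else 0) = μ := by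
      rw [hμd]
      refine Finset.sum_congr rfl fun p hp => ?_
      rw [Finset.sum_ite_eq P p, if_pos hp]
    have t5 : ∑ p ∈ P, ∑ p' ∈ P, D p * D p' = μ ^ 2 := by
      rw [← Finset.sum_mul_sum, ← hμd, pow_two]
    rw [t4, t5]
  have t3 : Tendsto (fun N => mean S (fun t => X t ^ 2) N - 2 * μ * mean S X N + μ ^ 2) atTop
      (nhds ((∑ p ∈ P, ∑ p' ∈ P, if p = p' then D p else D p * D p') - 2 * μ * μ + μ ^ 2)) :=
    (t2.sub (t1.const_mul (2 * μ))).add_const _
  have hlt : (∑ p ∈ P, ∑ p' ∈ P, if p = p' then D p else D p * D p') - 2 * μ * μ + μ ^ 2 < 2 * μ := by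
    nlinarith
  obtain ⟨N₀, hN₀⟩ := eventually_atTop.mp (t3.eventually_lt_const hlt)
  refine ⟨N₀, fun N hN => ?_⟩
  have h4 := hN₀ N hN
  have e0 : ({t : ℕ | t ∈ S N ∧ t ∈ {t | ¬ ∃ p ∈ Ps, t ∈ Ev p}}.ncard : ℝ) ≤
      (((S N).filter fun t => ∀ p ∈ P, t ∉ Ev p).card : ℝ) := by
    have hsub : {t : ℕ | t ∈ S N ∧ t ∈ {t | ¬ ∃ p ∈ Ps, t ∈ Ev p}} ⊆
        ↑((S N).filter fun t => ∀ p ∈ P, t ∉ Ev p) := by
      rintro t ⟨ht, ht'⟩
      rw [Finset.mem_coe, Finset.mem_filter]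
      exact ⟨ht, fun p hp hcon => ht' ⟨p, hP p hp, hcon⟩⟩
    have := Set.ncard_le_ncard hsub (Finset.finite_toSet _)
    rw [Set.ncard_coe_finset] at this
    exact_mod_cast this
  refine e0.trans ?_
  rcases Nat.eq_zero_or_pos (S N).card with h0 | hpos
  · have h5 : ((S N).filter fun t => ∀ p ∈ P, t ∉ Ev p).card = 0 :=
      Nat.le_zero.mp (h0 ▸ Finset.card_filter_le _ _)
    rw [h5, h0]
    simp
  have hposR : (0 : ℝ) < (S N).card := by exact_mod_cast hpos
  have hcount : (((S N).filter fun t => ∀ p ∈ P, t ∉ Ev p).card : ℝ) * μ ^ 2 ≤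
      ∑ t ∈ S N, (X t - μ) ^ 2 := by
    calc _ = ∑ t ∈ (S N).filter (fun t => ∀ p ∈ P, t ∉ Ev p), (X t - μ) ^ 2 := by
          rw [← nsmul_eq_mul, ← Finset.sum_const]
          refine Finset.sum_congr rfl fun t ht => ?_
          have h0 : X t = 0 := by
            rw [hX]
            refine Finset.sum_eq_zero fun p hp => ?_
            unfold ι
            rw [if_neg ((Finset.mem_filter.mp ht).2 p hp)]
          rw [h0]
          ring
      _ ≤ _ := Finset.sum_le_sum_of_subset_of_nonneg (Finset.filter_subset _ _)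
          fun t _ _ => sq_nonneg _
  have hexp : ∑ t ∈ S N, (X t - μ) ^ 2 =
      (mean S (fun t => X t ^ 2) N - 2 * μ * mean S X N + μ ^ 2) * (S N).card := by
    have e1 : ∀ t ∈ S N, (X t - μ) ^ 2 = X t ^ 2 - 2 * μ * X t + μ ^ 2 := fun t _ => by ring
    rw [Finset.sum_congr rfl e1, Finset.sum_add_distrib, Finset.sum_sub_distrib, ← Finset.mul_sum,
      Finset.sum_const, nsmul_eq_mul]
    unfold mean
    field_simp
  rw [hexp] at hcount
  have h5 : (((S N).filter fun t => ∀ p ∈ P, t ∉ Ev p).card : ℝ) * μ ^ 2 ≤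
      (2 * μ) * (S N).card := hcount.trans (by gcongr)
  have h6 : (((S N).filter fun t => ∀ p ∈ P, t ∉ Ev p).card : ℝ) * μ ≤ 2 * (S N).card := by
    have : ((((S N).filter fun t => ∀ p ∈ P, t ∉ Ev p).card : ℝ) * μ) * μ ≤ (2 * (S N).card) * μ := by
      nlinarith
    exact le_of_mul_le_mul_right this hμ
  have h7 : 2 ≤ ε * μ := by
    rw [div_le_iff₀ hε] at hμε
    linarith
  have h8 : 2 * ((S N).card : ℝ) ≤ (ε * μ) * (S N).card := by gcongr
  have h9 : (((S N).filter fun t => ∀ p ∈ P, t ∉ Ev p).card : ℝ) * μ ≤ (ε * (S N).card) * μ := by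
    linarith
  exact le_of_mul_le_mul_right h9 hμ

end Pool.Agent.V7H38.BS
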