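import Pool.Agent.N92.TC.Sec
import Pool.Agent.V7H38.BS.Main

/-! # Sections over twists of a cyclic covering by values of polynomials -/

set_option autoImplicit false
set_option linter.unusedSectionVars false

namespace Pool.Agent.V7H38.BS

open Finset Polynomial Pool.Agent.R925.FD Pool.Agent.N666.TM
open Pool.Agent.TH954 Pool.Agent.TH942
open Pool.Agent.N680.TH (Once)
open Pool.Agent.N92.TC (bsc_once)

variable {K : Type} [Fintype K]

/-- Every section over an extension of the function field of `C a` which is geometric over the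
completions at the finite places has a class which is persistent relative to `F₀`, `A₀`. -/
def SectionsPersistentOver {K : Type} [Fintype K] (F₀ A₀ : ℤ[X]) (n m : ℕ) (b a : ℤ) (g : K → ℤ[X])
    (h : ℤ[X]) : Prop :=
  ∀ (F Ω B : Type) [Field F] [Field Ω] [Field B] [Algebra ℚ F] [Algebra F Ω] [Algebra ℚ Ω]
    [Algebra ℚ B] [IsScalarTower ℚ F Ω] [IsAlgClosure F Ω] [IsAlgClosure ℚ B] (z x y : F),
    Transcendental ℚ z → (b : F) * y ^ n = ∏ k, aeval z (g k) → (a : F) * x ^ m = aeval z h →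
    ∀ s : GalSection ℚ F Ω B, LocallyGeometric s →
      ∃ δ : K → ℚ, IsClass n b δ ∧ SectionClass n g s z δ ∧ PersistentOver F₀ A₀ n g h δ

/-- Every persistent class is the class of an integral zero of `h`. -/
def OnlyZerosOver {K : Type} [Fintype K] (F₀ A₀ : ℤ[X]) (b : ℤ) (g : K → ℤ[X]) (h : ℤ[X]) : Prop :=
  ∀ δ : K → ℚ, IsClass 2 b δ → PersistentOver F₀ A₀ 2 g h δ →
    ∃ α : ℤ, h.eval α = 0 ∧ ∀ k, IsSquare (δ k * ((g k).eval α : ℤ))

/-- sections have persistent classes -/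
theorem sec_main {F₀ A₀ : ℤ[X]} {E : Set ℕ} {a : ℕ → ℤ} (hE : Rich F₀ A₀ E a) {n : ℕ} (hn : 0 < n) {b : ℤ} (hb : b ≠ 0)
    {g : K → ℤ[X]} {h : ℤ[X]} (hg0 : ∀ k, g k ≠ 0) (hh0 : h ≠ 0) (hdeg : ∀ k, n ∣ (g k).natDegree)
    (hgg : ∀ k l, k ≠ l →
      IsCoprime ((g k).map (Int.castRingHom ℚ)) ((g l).map (Int.castRingHom ℚ)))
    (hgh : ∀ k, IsCoprime (h.map (Int.castRingHom ℚ)) ((g k).map (Int.castRingHom ℚ))) :
    {t : ℕ | t ∉ E ∧ ∃ m, 2 ≤ m ∧ m ∣ h.natDegree ∧ ¬ SectionsPersistentOver F₀ A₀ n m b (a t) g h}.Finite := by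
  classical
  refine (main hE n hn b hb g h hg0 hh0 hdeg hgg hgh).subset ?_
  rintro t ⟨htE, m, hm, hmh, hno⟩
  refine ⟨htE, m, hm, hmh, ?_⟩
  by_contra hcon
  apply hno
  intro F Ω B _ _ _ _ _ _ _ _ _ _ z x y hz hy hx s hs
  obtain ⟨δ, h3, h4⟩ := exists_sectionClass hn hb hg0 s hz hy
  refine ⟨δ, h3, h4, ?_⟩
  by_contra hper
  have ha0 : a t ≠ 0 := by
    intro h0
    rw [h0, Int.cast_zero, zero_mul] at hx
    exact aeval_ne_zero hz hh0 hx.symm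
  exact hcon ⟨δ, h3, hper, fun p _ => cov_of_section hn (by omega) ha0 hdeg hmh s hs hz hx
    h3.1 h4 p⟩

theorem fromZeros {F₀ A₀ : ℤ[X]} (hF₀ : ∃ θ, SimpleZero F₀ A₀ θ) {E : Set ℕ} {a : ℕ → ℤ} (hE : Rich F₀ A₀ E a) {b : ℤ} (hb : b ≠ 0) {g : K → ℤ[X]}
    {h : ℤ[X]} (hg0 : ∀ k, g k ≠ 0) (hh0 : h ≠ 0) (hdeg : ∀ k, 2 ∣ (g k).natDegree)
    (hgg : ∀ k l, k ≠ l →
      IsCoprime ((g k).map (Int.castRingHom ℚ)) ((g l).map (Int.castRingHom ℚ)))
    (hgh : ∀ k, IsCoprime (h.map (Int.castRingHom ℚ)) ((g k).map (Int.castRingHom ℚ)))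
    (hOZ : OnlyZerosOver F₀ A₀ b g h) {M₀ : ℕ} (hM₀ : 1 ≤ M₀) (T : Finset K)
    (hT : ∀ α : ℤ, h.eval α = 0 → EllipticFactor (∏ k ∈ T, g k) α M₀) :
    {t : ℕ | t ∉ E ∧ ∃ m, 2 ≤ m ∧ m ∣ h.natDegree ∧
      ¬ SectionsFromZeros 2 m b (a t) g h}.Finite := by
  classical
  -- the constant
  have hroots : {α : ℤ | h.eval α = 0}.Finite := by
    refine (Polynomial.finite_setOfPred_isRoot hh0).subset ?_
    intro α hα
    exact hα
  choose N hN using fun α : {α : ℤ // h.eval α = 0} => bsc_once hM₀ hh0 (hT α.1 α.2)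
  obtain ⟨N₀, hN₀⟩ : ∃ N₀ : ℕ, ∀ α, N α ≤ N₀ := by
    have : Finite {α : ℤ // h.eval α = 0} := hroots
    obtain ⟨N₀, hN₀⟩ := (Set.finite_range N).bddAbove
    exact ⟨N₀, fun α => hN₀ ⟨α, rfl⟩⟩
  refine ((sec_main hE (n := 2) (by norm_num) hb hg0 hh0 hdeg hgg hgh).union
    (hE.1 hF₀ N₀)).subset ?_
  rintro t ⟨htE, m, hm, hmh, hno⟩
  by_cases hq : ∃ p : ℕ, p.Prime ∧ N₀ < p ∧ Once p (a t)
  · left
    refine ⟨htE, m, hm, hmh, fun hP => hno ?_⟩
    intro F Ω B _ _ _ _ _ _ _ _ _ _ z x y hz halg hy hx s hs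
    have hcF : CharZero F := charZero_of_injective_algebraMap (algebraMap ℚ F).injective
    have hcΩ : CharZero Ω := charZero_of_injective_algebraMap (algebraMap F Ω).injective
    obtain ⟨δ, h3, h4, h5⟩ := hP F Ω B z x y hz hy hx s hs
    obtain ⟨α, hα, hsq⟩ := hOZ δ h3 h5
    choose γ hγ hγ' using h4
    obtain ⟨p, hp, hpN, hpa⟩ := hq
    have hlt : N ⟨α, hα⟩ < p := lt_of_le_of_lt (hN₀ _) hpN
    obtain ⟨O, h6, h7, h8⟩ := hN ⟨α, hα⟩ F Ω B s hs z x hz halg m (a t) hm hmh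
      ⟨p, hp, hlt, hpa⟩ hx
      (∏ k ∈ T, δ k) (∏ k ∈ T, γ k) (by
        choose r hr using hsq
        refine ⟨∏ k ∈ T, r k, ?_⟩
        rw [eval_prod, Int.cast_prod, ← prod_mul_distrib, ← prod_mul_distrib]
        exact prod_congr rfl fun k _ => hr k) (by
        intro σ
        rw [map_prod]
        exact prod_congr rfl fun k _ => hγ k σ) (by
        rw [map_prod, map_prod, prod_congr rfl fun k _ => hγ' k, prod_mul_distrib, prod_pow,
          Rat.cast_prod])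
    exact ⟨⟨O, h6, h7⟩, fun O' hO' => by rw [h7 O' hO']; exact h8⟩
  · right
    exact ⟨htE, hq⟩

end Pool.Agent.V7H38.BS
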